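import Pool.Agent.Q92.RT.Ind

/-!
# The theorem of Aramata and Brauer for characters

`n (r_G - 1)`, `n` the order of the finite group `G` and `r_G` the regular character, is a sum of
characters induced by nontrivial linear characters of cyclic subgroups.
-/

set_option autoImplicit false
set_option linter.unusedSectionVars false

namespace Pool.Agent.Q284.SP

open Pool.Agent.Q92.RT (induced)
open scoped Classical

section int

variable {A : Type} [Group A] [Fintype A]

/-- the sum of a linear character over the generators of a subgroup -/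
noncomputable def cg (ψ : A →* ℂˣ) (B : Subgroup A) : ℂ :=
  ∑ σ : A, if Subgroup.zpowers σ = B then ((ψ σ : ℂˣ) : ℂ) else 0

theorem sum_cg (ψ : A →* ℂˣ) (B : Subgroup A) :
    ∃ z : ℤ, ∑ B' ∈ Finset.univ.filter (fun B' : Subgroup A => B' ≤ B), cg ψ B' = (z : ℂ) := by
  have h1 : ∑ B' ∈ Finset.univ.filter (fun B' : Subgroup A => B' ≤ B), cg ψ B' =
      ∑ σ : A, if σ ∈ B then ((ψ σ : ℂˣ) : ℂ) else 0 := by
    unfold cg
    rw [Finset.sum_comm]
    refine Finset.sum_congr rfl fun σ _ => ?_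
    rw [Finset.sum_ite_eq]
    by_cases h : σ ∈ B
    · rw [if_pos h, if_pos]
      rw [Finset.mem_filter]
      exact ⟨Finset.mem_univ _, (Subgroup.zpowers_le).2 h⟩
    · rw [if_neg h, if_neg]
      rw [Finset.mem_filter]
      rintro ⟨-, h2⟩
      exact h ((Subgroup.zpowers_le).1 h2)
  have hB : Fintype B := Fintype.ofFinite B
  have h2 : ∑ σ : A, (if σ ∈ B then ((ψ σ : ℂˣ) : ℂ) else 0) =
      ∑ σ : B, ((Units.coeHom ℂ).comp (ψ.comp B.subtype)) σ := by
    rw [← Finset.sum_filter]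
    exact Finset.sum_subtype (Finset.univ.filter fun g => g ∈ B) (p := fun g => g ∈ B)
      (fun g => by simp) (fun g => ((ψ g : ℂˣ) : ℂ))
  rw [h1, h2, sum_hom_units]
  split_ifs
  · exact ⟨(Fintype.card B : ℤ), by push_cast; rfl⟩
  · exact ⟨0, by simp⟩

/-- the sums over the generators are integers (Ramanujan) -/
theorem int_cg (ψ : A →* ℂˣ) (B : Subgroup A) : ∃ z : ℤ, cg ψ B = (z : ℂ) := by
  induction B using WellFoundedLT.induction with
  | _ B ih =>
    obtain ⟨z, hz⟩ := sum_cg ψ B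
    choose! w hw using ih
    have h1 : (Finset.univ.filter fun B' : Subgroup A => B' ≤ B) =
        insert B (Finset.univ.filter fun B' : Subgroup A => B' < B) := by
      ext B'
      simp only [Finset.mem_filter, Finset.mem_univ, true_and, Finset.mem_insert]
      exact le_iff_eq_or_lt
    rw [h1, Finset.sum_insert (by simp)] at hz
    refine ⟨z - ∑ B' ∈ Finset.univ.filter (fun B' : Subgroup A => B' < B), w B', ?_⟩
    push_cast
    rw [← hz, ← Finset.sum_congr rfl fun B' hB' => hw B' (Finset.mem_filter.1 hB').2]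
    ring

end int

section orth

variable {A : Type} [CommGroup A] [Finite A]

/-- orthogonality -/
theorem orth [Fintype (A →* ℂˣ)] (z : A) :
    ∑ ψ : A →* ℂˣ, ((ψ z : ℂˣ) : ℂ) = if z = 1 then (Nat.card A : ℂ) else 0 := by
  have : NeZero (Monoid.exponent A) := ⟨Monoid.exponent_ne_zero_of_finite⟩
  split_ifs with h
  · subst h
    have h1 := CommGroup.card_monoidHom_of_hasEnoughRootsOfUnity A ℂ
    simp only [map_one, Units.val_one, Finset.sum_const, Finset.card_univ, nsmul_eq_mul, mul_one]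
    rw [← h1, Nat.card_eq_fintype_card]
  · obtain ⟨ψ0, h0⟩ := CommGroup.exists_apply_ne_one_of_hasEnoughRootsOfUnity A ℂ h
    have h1 : ((ψ0 z : ℂˣ) : ℂ) * ∑ ψ : A →* ℂˣ, ((ψ z : ℂˣ) : ℂ) =
        ∑ ψ : A →* ℂˣ, ((ψ z : ℂˣ) : ℂ) := by
      rw [Finset.mul_sum]
      refine Fintype.sum_equiv (Equiv.mulLeft ψ0) _ _ fun ψ => ?_
      simp only [Equiv.coe_mulLeft, MonoidHom.mul_apply, Units.val_mul]
    have h2 : (((ψ0 z : ℂˣ) : ℂ) - 1) * ∑ ψ : A →* ℂˣ, ((ψ z : ℂˣ) : ℂ) = 0 := by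
      rw [sub_mul, one_mul, h1, sub_self]
    refine (mul_eq_zero.1 h2).resolve_left fun h3 => h0 ?_
    exact Units.ext (sub_eq_zero.1 h3)

end orth

section main

variable {G : Type} [Group G] [Finite G]

/-- the multiplicity of the linear character `ψ` of the subgroup `A` -/
theorem exists_m (A : Subgroup G) (ψ : A →* ℂˣ) [Fintype A] : ∃ m : ℕ,
    (m : ℂ) = ∑ σ : A, if Subgroup.zpowers σ = ⊤ then 1 - (((ψ σ)⁻¹ : ℂˣ) : ℂ) else 0 := by
  obtain ⟨z, hz⟩ := int_cg ψ⁻¹ (⊤ : Subgroup A)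
  have h1 : ∑ σ : A, (if Subgroup.zpowers σ = ⊤ then 1 - (((ψ σ)⁻¹ : ℂˣ) : ℂ) else 0) =
      (((Finset.univ.filter fun σ : A => Subgroup.zpowers σ = ⊤).card - z : ℤ) : ℂ) := by
    push_cast
    rw [← hz]
    unfold cg
    rw [Finset.card_filter]
    push_cast
    rw [← Finset.sum_sub_distrib]
    refine Finset.sum_congr rfl fun σ _ => ?_
    split_ifs
    · rw [MonoidHom.inv_apply, Units.val_inv_eq_inv_val]
    · simp
  have h2 : 0 ≤ (∑ σ : A, (if Subgroup.zpowers σ = ⊤ then 1 - (((ψ σ)⁻¹ : ℂˣ) : ℂ) else 0)).re := by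
    rw [Complex.re_sum]
    refine Finset.sum_nonneg fun σ _ => ?_
    split_ifs
    · rw [Complex.sub_re, Complex.one_re]
      have h3 : ‖(((ψ σ)⁻¹ : ℂˣ) : ℂ)‖ = 1 := by
        have h4 : ((((ψ σ)⁻¹ : ℂˣ) : ℂ)) ^ Nat.card A = 1 := by
          rw [← Units.val_pow_eq_pow_val, inv_pow, ← map_pow, pow_card_eq_one', map_one, inv_one,
            Units.val_one]
        have h5 : ‖(((ψ σ)⁻¹ : ℂˣ) : ℂ)‖ ^ Nat.card A = 1 := by rw [← norm_pow, h4, norm_one]
        exact (pow_eq_one_iff_of_nonneg (norm_nonneg _) Nat.card_pos.ne').1 h5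
      have := Complex.re_le_norm (((ψ σ)⁻¹ : ℂˣ) : ℂ)
      linarith
    · simp
  rw [h1, Complex.intCast_re] at h2
  have h3 : (0 : ℤ) ≤ (Finset.univ.filter fun σ : A => Subgroup.zpowers σ = ⊤).card - z := by
    exact_mod_cast h2
  obtain ⟨m, hm⟩ := Int.eq_ofNat_of_zero_le h3
  refine ⟨m, ?_⟩
  rw [h1, hm]
  rfl

/-- the combination of the linear characters of one cyclic subgroup -/
theorem comb (A : Subgroup G) [Fintype A] (hA : IsCyclic A) [Fintype (A →* ℂˣ)]
    {m : (A →* ℂˣ) → ℕ} (hm : ∀ ψ : A →* ℂˣ,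
      (m ψ : ℂ) = ∑ σ : A, if Subgroup.zpowers σ = ⊤ then 1 - (((ψ σ)⁻¹ : ℂˣ) : ℂ) else 0) (z : A) :
    ∑ ψ : A →* ℂˣ, (m ψ : ℂ) * ((ψ z : ℂˣ) : ℂ) = (Nat.card A : ℂ) *
      (((Finset.univ.filter fun σ : A => Subgroup.zpowers σ = ⊤).card : ℂ) * (if z = 1 then 1 else 0) -
        if Subgroup.zpowers z = ⊤ then 1 else 0) := by
  have hcomm : ∀ a b : A, a * b = b * a := by
    let cg := IsCyclic.commGroup (α := A)
    exact fun a b => mul_comm a b
  have ho : ∀ z : A, ∑ ψ : A →* ℂˣ, ((ψ z : ℂˣ) : ℂ) = if z = 1 then (Nat.card A : ℂ) else 0 := by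
    let cg : CommGroup A := { (inferInstance : Group A) with mul_comm := hcomm }
    intro z
    have := orth z
    convert this
  simp only [hm, Finset.sum_mul]
  rw [Finset.sum_comm]
  have h1 : ∀ σ : A, ∑ ψ : A →* ℂˣ, (if Subgroup.zpowers σ = ⊤ then 1 - (((ψ σ)⁻¹ : ℂˣ) : ℂ) else 0) *
      ((ψ z : ℂˣ) : ℂ) = if Subgroup.zpowers σ = ⊤ then (Nat.card A : ℂ) *
        ((if z = 1 then 1 else 0) - if z = σ then 1 else 0) else 0 := by
    intro σ
    by_cases hσ : Subgroup.zpowers σ = ⊤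
    · simp only [if_pos hσ, sub_mul, one_mul, Finset.sum_sub_distrib]
      have h2 : ∀ ψ : A →* ℂˣ, (((ψ σ)⁻¹ : ℂˣ) : ℂ) * ((ψ z : ℂˣ) : ℂ) = ((ψ (σ⁻¹ * z) : ℂˣ) : ℂ) := by
        intro ψ
        rw [map_mul, map_inv, Units.val_mul]
      simp only [h2, ho]
      have h3 : (σ⁻¹ * z = 1) ↔ z = σ := by
        rw [inv_mul_eq_one]
        exact eq_comm
      simp only [h3]
      split_ifs <;> ring
    · simp only [if_neg hσ, zero_mul, Finset.sum_const_zero]
  simp only [h1]
  rw [mul_sub, Finset.card_filter]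
  push_cast
  have h4 : ∀ σ : A, (if Subgroup.zpowers σ = ⊤ then (Nat.card A : ℂ) *
        ((if z = 1 then 1 else 0) - if z = σ then 1 else 0) else 0) =
      (Nat.card A : ℂ) * ((if Subgroup.zpowers σ = ⊤ then (1 : ℂ) else 0) * if z = 1 then 1 else 0) -
        (Nat.card A : ℂ) * (if z = σ then (if Subgroup.zpowers σ = ⊤ then 1 else 0) else 0) := by
    intro σ
    split_ifs <;> ring
  simp only [h4, Finset.sum_sub_distrib]
  rw [← Finset.mul_sum, ← Finset.mul_sum, ← Finset.sum_mul, Finset.sum_ite_eq]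
  simp only [Finset.mem_univ, if_true]

/-- the sum over the characters, induced -/
theorem ind_comb (A : Subgroup G) [Fintype A] (hA : IsCyclic A) [Fintype (A →* ℂˣ)] [Fintype G]
    {m : (A →* ℂˣ) → ℕ} (hm : ∀ ψ : A →* ℂˣ,
      (m ψ : ℂ) = ∑ σ : A, if Subgroup.zpowers σ = ⊤ then 1 - (((ψ σ)⁻¹ : ℂˣ) : ℂ) else 0) (x : G) :
    ∑ ψ : A →* ℂˣ, (m ψ : ℂ) * induced A ψ x = ∑ y : G,
      (((Finset.univ.filter fun g : G => Subgroup.zpowers g = A).card : ℂ) *
        (if x = 1 then 1 else 0) - if Subgroup.zpowers (y⁻¹ * x * y) = A then 1 else 0) := by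
  have hcard : (Nat.card A : ℂ) ≠ 0 := by exact_mod_cast Nat.card_pos.ne'
  have hmt : Subgroup.map A.subtype ⊤ = A := by
    rw [← MonoidHom.range_eq_map, Subgroup.range_subtype]
  have hgen : (Finset.univ.filter fun σ : A => Subgroup.zpowers σ = ⊤).card =
      (Finset.univ.filter fun g : G => Subgroup.zpowers g = A).card := by
    refine Finset.card_bij (fun σ _ => (σ : G)) ?_ ?_ ?_
    · intro σ hσ
      rw [Finset.mem_filter] at hσ ⊢
      refine ⟨Finset.mem_univ _, ?_⟩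
      have h1 := congrArg (Subgroup.map A.subtype) hσ.2
      rw [MonoidHom.map_zpowers, hmt] at h1
      exact h1
    · intro a _ b _ h
      exact Subtype.ext h
    · intro g hg
      rw [Finset.mem_filter] at hg
      have hgA : g ∈ A := by rw [← hg.2]; exact Subgroup.mem_zpowers g
      refine ⟨⟨g, hgA⟩, ?_, rfl⟩
      rw [Finset.mem_filter]
      refine ⟨Finset.mem_univ _, ?_⟩
      apply Subgroup.map_injective A.subtype_injective
      rw [MonoidHom.map_zpowers, hmt]
      exact hg.2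
  have hz : ∀ z : A, (Subgroup.zpowers z = ⊤) ↔ Subgroup.zpowers (z : G) = A := by
    intro z
    rw [← (Subgroup.map_injective A.subtype_injective).eq_iff, MonoidHom.map_zpowers, hmt]
    rfl
  unfold induced
  simp only [finsum_eq_sum_of_fintype]
  have h0 : ∀ ψ : A →* ℂˣ, (m ψ : ℂ) * ((Nat.card A : ℂ)⁻¹ * ∑ y : G,
      if h : y⁻¹ * x * y ∈ A then ((ψ ⟨y⁻¹ * x * y, h⟩ : ℂˣ) : ℂ) else 0) =
      ∑ y : G, (Nat.card A : ℂ)⁻¹ * ((m ψ : ℂ) *
        if h : y⁻¹ * x * y ∈ A then ((ψ ⟨y⁻¹ * x * y, h⟩ : ℂˣ) : ℂ) else 0) := by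
    intro ψ
    rw [mul_left_comm, Finset.mul_sum, Finset.mul_sum]
  rw [Finset.sum_congr rfl fun ψ _ => h0 ψ, Finset.sum_comm]
  refine Finset.sum_congr rfl fun y _ => ?_
  rw [← Finset.mul_sum]
  by_cases h : y⁻¹ * x * y ∈ A
  · simp only [dif_pos h]
    rw [comb A hA hm, ← mul_assoc, inv_mul_cancel₀ hcard, one_mul, hgen]
    have e1 : ((⟨y⁻¹ * x * y, h⟩ : A) = 1) ↔ x = 1 := by
      rw [← Subtype.coe_inj]
      simp only [Subgroup.coe_one]
      constructor
      · intro h2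
        have : x = y * (y⁻¹ * x * y) * y⁻¹ := by group
        rw [this, h2]
        group
      · rintro rfl
        group
    have e2 := hz ⟨y⁻¹ * x * y, h⟩
    simp only [e1, e2]
  · simp only [dif_neg h, mul_zero, Finset.sum_const_zero]
    have hx : x ≠ 1 := by
      rintro rfl
      apply h
      have : y⁻¹ * 1 * y = 1 := by group
      rw [this]
      exact A.one_mem
    have h2 : Subgroup.zpowers (y⁻¹ * x * y) ≠ A := by
      intro h3
      exact h (h3 ▸ Subgroup.mem_zpowers _)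
    rw [if_neg hx, if_neg h2]
    ring

/-- **Aramata and Brauer.** `n (r_G - 1)` is a sum of characters induced by nontrivial linear
characters of cyclic subgroups. -/
theorem ab (G : Type) [Group G] [Finite G] : ∃ (ι : Type) (_ : Fintype ι) (A : ι → Subgroup G)
    (ψ : ∀ i, A i →* ℂˣ) (m : ι → ℕ), (∀ i, ψ i ≠ 1) ∧ ∀ x : G,
      (Nat.card G : ℂ) * ((if x = 1 then (Nat.card G : ℂ) else 0) - 1) =
        ∑ i, (m i : ℂ) * induced (A i) (ψ i) x := by
  have : Fintype G := Fintype.ofFinite G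
  let J : Type := {A : Subgroup G // IsCyclic A}
  have hfin : ∀ A : Subgroup G, Fintype A := fun A => Fintype.ofFinite A
  have hfin2 : ∀ A : J, Finite (A.1 →* ℂˣ) := by
    intro A
    have := A.2
    exact Finite.of_injective (fun ψ : A.1 →* ℂˣ => fun a : A.1 =>
      (⟨ψ a, by
        rw [mem_rootsOfUnity, ← map_pow, pow_card_eq_one', map_one]⟩ :
          rootsOfUnity (Nat.card A.1) ℂ)) (by
      intro ψ ψ' h
      ext a
      have := congrFun h a
      exact congrArg (fun u : rootsOfUnity (Nat.card A.1) ℂ => ((u : ℂˣ) : ℂ)) this)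
  have hfin3 : ∀ A : J, Fintype (A.1 →* ℂˣ) := fun A => Fintype.ofFinite _
  choose m hm using fun (A : J) (ψ : A.1 →* ℂˣ) => exists_m A.1 ψ
  let ι : Type := Σ A : J, {ψ : A.1 →* ℂˣ // ψ ≠ 1}
  refine ⟨ι, inferInstance, fun i => i.1.1, fun i => i.2.1, fun i => m i.1 i.2.1, fun i => i.2.2,
    fun x => ?_⟩
  rw [Fintype.sum_sigma]
  have h1 : ∀ A : J, ∑ ψ : {ψ : A.1 →* ℂˣ // ψ ≠ 1}, (m A ψ.1 : ℂ) * induced A.1 ψ.1 x =
      ∑ ψ : A.1 →* ℂˣ, (m A ψ : ℂ) * induced A.1 ψ x := by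
    intro A
    rw [← Finset.sum_subtype (Finset.univ.filter fun ψ : A.1 →* ℂˣ => ψ ≠ 1) (fun ψ => by simp)
      (fun ψ => (m A ψ : ℂ) * induced A.1 ψ x), Finset.sum_filter]
    refine Finset.sum_congr rfl fun ψ _ => ?_
    by_cases h : ψ = 1
    · rw [if_neg (not_not.2 h)]
      have : (m A ψ : ℂ) = 0 := by
        rw [hm, h]
        refine Finset.sum_eq_zero fun σ _ => ?_
        simp
      rw [this, zero_mul]
    · rw [if_pos h]
  simp only [h1, fun A : J => ind_comb A.1 A.2 (hm A) x]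
  rw [Finset.sum_comm]
  simp only [Finset.sum_sub_distrib, ← Finset.sum_mul]
  have h2 : ∑ A : J, ((Finset.univ.filter fun g : G => Subgroup.zpowers g = A.1).card : ℂ) =
      Nat.card G := by
    rw [← Nat.cast_sum]
    congr 1
    rw [Nat.card_eq_fintype_card, ← Finset.card_univ,
      Finset.card_eq_sum_card_fiberwise (t := (Finset.univ : Finset J))
        (f := fun g : G => (⟨Subgroup.zpowers g, inferInstance⟩ : J)) (fun _ _ => Finset.mem_univ _)]
    refine Finset.sum_congr rfl fun A _ => ?_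
    congr 1
    ext g
    simp only [Finset.mem_filter, Finset.mem_univ, true_and]
    exact ⟨fun h => Subtype.ext h, fun h => congrArg Subtype.val h⟩
  have h3 : ∀ y : G, ∑ A : J, (if Subgroup.zpowers (y⁻¹ * x * y) = A.1 then (1 : ℂ) else 0) = 1 := by
    intro y
    rw [Finset.sum_eq_single (⟨Subgroup.zpowers (y⁻¹ * x * y), inferInstance⟩ : J)]
    · simp
    · intro A _ hA
      rw [if_neg]
      intro h
      exact hA (Subtype.ext h.symm)
    · intro h
      exact absurd (Finset.mem_univ _) h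
  simp only [h2, h3, Finset.sum_const, Finset.card_univ, nsmul_eq_mul, mul_one,
    Nat.card_eq_fintype_card]
  split_ifs <;> ring

end main

end Pool.Agent.Q284.SP
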