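import Pool.Agent.Q284.SP.Grw
import Pool.Agent.Q92.AR.All

/-!
# The L-functions of the nontrivial linear characters of subgroups

They are holomorphic for `Re s > 0` and of polynomial growth for `Re s ≥ 1/4`.
-/

set_option autoImplicit false
set_option linter.unusedSectionVars false

namespace Pool.Agent.Q284.SP

open NumberField IsDedekindDomain Filter Topology Complex Set
open Pool.Agent.Q92.AR Pool.Agent.H921R2.TatePole Pool.Agent.W353.NF
open Pool.Agent.Q92.RT (induced)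

section
variable {F : Type} [Field F] [NumberField F]

theorem two_rpow : (0 : ℝ) < 1 - 2 ^ (-(1 / 4) : ℝ) := by
  have : (2 : ℝ) ^ (-(1 / 4) : ℝ) < 1 := Real.rpow_lt_one_of_one_lt_of_neg (by norm_num) (by norm_num)
  linarith

theorem fac_le {z : ℂ} (hz : ‖z‖ ≤ 1) (v : HeightOneSpectrum (𝓞 F)) {s : ℂ} (hs : 1 / 4 ≤ s.re) :
    ‖z * (nm v : ℂ) ^ (-s)‖ ≤ 2 ^ (-(1 / 4) : ℝ) := by
  refine (norm_fac hz v s).trans ?_
  have h2 : (2 : ℝ) ≤ nm v := by exact_mod_cast two_le_nm v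
  calc (nm v : ℝ) ^ (-s.re) ≤ (nm v : ℝ) ^ (-(1 / 4) : ℝ) :=
        Real.rpow_le_rpow_of_exponent_le (by linarith) (by linarith)
    _ ≤ 2 ^ (-(1 / 4) : ℝ) := Real.rpow_le_rpow_of_nonpos (by norm_num) h2 (by norm_num)

/-- comparison of two Euler products which differ at finitely many primes, with bounds -/
theorem LP_compare' {P P' : Set (HeightOneSpectrum (𝓞 F))} {χ χ' : HeightOneSpectrum (𝓞 F) → ℂ}
    (h1 : (P \ P').Finite) (h2 : (P' \ P).Finite) (hχ : ∀ v, ‖χ v‖ ≤ 1) (hχ' : ∀ v, ‖χ' v‖ ≤ 1)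
    (heq : ∀ v ∈ P ∩ P', χ v = χ' v) : ∃ E : ℂ → ℂ, MeromorphicOn E Set.univ ∧
      (∀ s : ℂ, 1 < s.re → LP P χ s = E s * LP P' χ' s) ∧
      (∀ s : ℂ, 0 < s.re → AnalyticAt ℂ E s ∧ E s ≠ 0) ∧ Poly (1 / 4) E := by
  classical
  refine ⟨fun s => (∏ v ∈ h1.toFinset, (1 - χ v * (nm v : ℂ) ^ (-s))⁻¹) *
    ∏ v ∈ h2.toFinset, (1 - χ' v * (nm v : ℂ) ^ (-s)), ?_, ?_, ?_, ?_⟩
  · intro s _
    refine MeromorphicAt.fun_mul (MeromorphicAt.fun_prod fun v _ => ?_)
      (MeromorphicAt.fun_prod fun v _ => (fac_analytic _ v s).meromorphicAt)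
    exact (fac_analytic _ v s).meromorphicAt.fun_inv
  · intro s hs
    have e1 : P = (P ∩ P') ∪ (P \ P') := (Set.inter_union_sdiff P P').symm
    have e2 : P' = (P ∩ P') ∪ (P' \ P) := by
      rw [Set.inter_comm]
      exact (Set.inter_union_sdiff P' P).symm
    have d1 : Disjoint (P ∩ P') (P \ P') := Set.disjoint_left.2 fun v hv hv' => hv'.2 hv.2
    have d2 : Disjoint (P ∩ P') (P' \ P) := Set.disjoint_left.2 fun v hv hv' => hv'.2 hv.1
    have h3 : LP P χ s = LP (P ∩ P') χ s * LP (P \ P') χ s := by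
      conv_lhs => rw [e1]
      exact LP_union d1 hχ hs
    have h4 : LP P' χ' s = LP (P ∩ P') χ' s * LP (P' \ P) χ' s := by
      conv_lhs => rw [e2]
      exact LP_union d2 hχ' hs
    rw [h3, h4, LP_congr heq, LP_finite h1 (fun v _ => hχ v) hs,
      LP_finite h2 (fun v _ => hχ' v) hs]
    have h5 : ∏ v ∈ h2.toFinset, (1 - χ' v * (nm v : ℂ) ^ (-s)) ≠ 0 :=
      Finset.prod_ne_zero_iff.2 fun v _ => one_sub_ne (norm_fac_lt (hχ' v) v (by linarith))
    rw [Finset.prod_inv_distrib (f := fun v => (1 - χ' v * (nm v : ℂ) ^ (-s)))]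
    field_simp
  · intro s hs
    have hne : ∀ (z : ℂ), ‖z‖ ≤ 1 → ∀ v : HeightOneSpectrum (𝓞 F), 1 - z * (nm v : ℂ) ^ (-s) ≠ 0 :=
      fun z hz v => one_sub_ne (norm_fac_lt hz v hs)
    refine ⟨?_, ?_⟩
    · refine AnalyticAt.fun_mul (Finset.analyticAt_fun_prod _ fun v _ => ?_)
        (Finset.analyticAt_fun_prod _ fun v _ => fac_analytic _ v s)
      exact (fac_analytic _ v s).fun_inv (hne _ (hχ v) v)
    · exact mul_ne_zero (Finset.prod_ne_zero_iff.2 fun v _ => inv_ne_zero (hne _ (hχ v) v))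
        (Finset.prod_ne_zero_iff.2 fun v _ => hne _ (hχ' v) v)
  · refine Poly.mul (Poly.prod _ fun v _ => ?_) (Poly.prod _ fun v _ => ?_)
    · refine Poly.of_bound (C := (1 - 2 ^ (-(1 / 4) : ℝ))⁻¹) fun s hs => ?_
      rw [norm_inv]
      refine inv_anti₀ two_rpow ?_
      have h3 := fac_le (hχ v) v hs
      have h4 := norm_sub_norm_le (1 : ℂ) (χ v * (nm v : ℂ) ^ (-s))
      rw [norm_one] at h4
      linarith
    · refine Poly.of_bound (C := 2) fun s hs => ?_
      have h3 := fac_le (hχ' v) v hs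
      have h4 := two_rpow
      refine (norm_sub_le _ _).trans ?_
      rw [norm_one]
      linarith

end

section
variable {K F M : Type} [Field K] [NumberField K] [Field F] [NumberField F] [Field M] [NumberField M]
  [Algebra K F] [Algebra K M] [Algebra F M] [IsScalarTower K F M] [IsGalois K M] [IsGalois F M]

theorem lin_field (ψ : fixer K F M →* ℂˣ) (hψ : ψ ≠ 1) :
    ∃ f : ℂ → ℂ, Continues f (artinL M (induced (fixer K F M) ψ)) ∧
      (∀ s : ℂ, 0 < s.re → AnalyticAt ℂ f s) ∧ Poly (1 / 4) f := by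
  classical
  set ψ' : (M ≃ₐ[F] M) →* ℂˣ := ψ.comp (resF K F M) with hψ'
  obtain ⟨N, hN, -, hray⟩ := recip F M ψ'
  have hnt : ∃ D ∈ Pr F N, art ψ' D ≠ 0 := by
    obtain ⟨y, hy⟩ : ∃ y : fixer K F M, ψ y ≠ 1 := by
      by_contra hcon
      push Not at hcon
      exact hψ (MonoidHom.ext hcon)
    let g : M ≃ₐ[F] M := { (y : M ≃ₐ[K] M) with commutes' := fun x => y.2 x }
    have hg : resF K F M g = y := by
      apply Subtype.ext
      ext x
      rfl
    have hg1 : ψ' g ≠ 1 := by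
      rw [hψ', MonoidHom.comp_apply, hg]
      exact hy
    obtain ⟨v, hvB, hvu, hvf⟩ := Pool.Agent.Q14.AR.cheb F M g _ (mem_finite (F := F) hN)
    refine ⟨Finsupp.single v 1, ?_, ?_⟩
    · intro w hw
      rw [Finsupp.single_apply, if_neg]
      rintro rfl
      exact hvB hw
    · rw [art_single, one_smul]
      obtain ⟨h, hh⟩ := isFrobenius_conj hvu hvf (frob_spec (M := M) v)
      intro h0
      apply hg1
      have h1 : ψ' (frob M v) = 1 := by
        exact Additive.ofMul.injective h0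
      rw [hh, map_mul, map_mul, map_inv, inv_mul_cancel_comm] at h1
      exact h1
  obtain ⟨f, hf1, hf2, hf3⟩ := hecke_poly F N (art ψ') hN hray hnt
  have hχ : ∀ w : HeightOneSpectrum (𝓞 F), ‖((ψ' (frob M w) : ℂˣ) : ℂ)‖ ≤ 1 :=
    fun w => (norm_char ψ' _).le
  have he : ∀ w : HeightOneSpectrum (𝓞 F),
      (((art ψ' (Finsupp.single w 1)).toMul : ℂˣ) : ℂ) = ((ψ' (frob M w) : ℂˣ) : ℂ) := by
    intro w
    rw [art_single, one_smul]
    rfl
  have h1 : ({w : HeightOneSpectrum (𝓞 F) | Unramified M (w.under (𝓞 K))} \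
      {v : HeightOneSpectrum (𝓞 F) | (N : 𝓞 F) ∉ v.asIdeal}).Finite := by
    refine (mem_finite (F := F) hN).subset ?_
    rintro w ⟨-, hw⟩
    exact not_not.1 hw
  have h2 : ({v : HeightOneSpectrum (𝓞 F) | (N : 𝓞 F) ∉ v.asIdeal} \
      {w : HeightOneSpectrum (𝓞 F) | Unramified M (w.under (𝓞 K))}).Finite := by
    refine (ramified_above_finite (K := K) (F := F) (M := M)).subset ?_
    rintro w ⟨-, hw⟩
    exact hw
  obtain ⟨E, hE1, hE2, hE3, hE4⟩ := LP_compare' (χ := fun w => ((ψ' (frob M w) : ℂˣ) : ℂ))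
    (χ' := fun w => (((art ψ' (Finsupp.single w 1)).toMul : ℂˣ) : ℂ)) h1 h2 hχ
    (fun w => by rw [he]; exact hχ w) (fun w _ => (he w).symm)
  refine ⟨fun s => E s * f s, ⟨fun s hs => (hE1 s hs).fun_mul (hf1.analyticAt s).meromorphicAt,
    fun s hs => ?_⟩, fun s hs => (hE3 s hs).1.fun_mul (hf1.analyticAt s),
    hE4.mul (hf3.mono (by norm_num))⟩
  change E s * f s = _
  rw [artinL_induced ψ ψ' (fun y hy => rfl) hs, hE2 s hs, hf2 s hs, Pool.Agent.Q92.AR.Lc_eq]

end

section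
variable {K M : Type} [Field K] [NumberField K] [Field M] [NumberField M] [Algebra K M]
  [IsGalois K M]

/-- **The L-functions of the nontrivial linear characters of subgroups** are holomorphic for
`Re s > 0`, of polynomial growth for `Re s ≥ 1/4`. -/
theorem lin (H : Subgroup (M ≃ₐ[K] M)) (ψ : H →* ℂˣ) (hψ : ψ ≠ 1) :
    ∃ f : ℂ → ℂ, Continues f (artinL M (induced H ψ)) ∧
      (∀ s : ℂ, 0 < s.re → AnalyticAt ℂ f s) ∧ Poly (1 / 4) f := by
  have h := fixer_fixedField (K := K) (M := M) H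
  have hgal : IsGalois (IntermediateField.fixedField H) M := inferInstance
  let ψ1 : fixer K (IntermediateField.fixedField H) M →* ℂˣ :=
    ψ.comp (Subgroup.inclusion (le_of_eq h))
  have h2 : induced (fixer K (IntermediateField.fixedField H) M) ψ1 = induced H ψ :=
    induced_congr h fun x hx hx' => rfl
  have h3 : ψ1 ≠ 1 := by
    intro h4
    apply hψ
    ext x
    have h5 := DFunLike.congr_fun h4 (Subgroup.inclusion (le_of_eq h.symm) x)
    exact congrArg Units.val h5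
  rw [← h2]
  exact lin_field ψ1 h3

end

end Pool.Agent.Q284.SP
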