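import Pool.Agent.Q284.T.Art
import Pool.Agent.Q92.RT.Ind

/-!
# Multiplicities of eigenvalues and induced characters of cyclic subgroups
-/

set_option autoImplicit false
set_option linter.unusedSectionVars false

namespace Pool.Agent.Q284.SP

open Module
open Pool.Agent.Q92.RT (induced induced_conj induced_pair)
open Pool.Agent.Q286.RL (Fam)
open Pool.Agent.Q284.T (mult exists_eig' NT)
open scoped Classical

variable {Γ : Type} [Group Γ] [Finite Γ]

/-- an eigenvalue of `ρ g` is a root of unity of order dividing that of `g` -/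
theorem pow_of_mult {d : ℕ} (ρ : Representation ℂ Γ (Fin d → ℂ)) (g : Γ) {x : ℂ}
    (h : mult ρ g x ≠ 0) : x ^ orderOf g = 1 := by
  unfold mult at h
  have h1 : Module.End.eigenspace (ρ g) x ≠ ⊥ := by
    intro h2
    rw [h2] at h
    exact h (finrank_bot ℂ _)
  obtain ⟨v, hv, hv0⟩ := Submodule.exists_mem_ne_zero_of_ne_bot h1
  rw [Module.End.mem_eigenspace_iff] at hv
  have h3 := Pool.Agent.Q286.RL.pow_eigen (ρ g) hv (orderOf g)
  rw [← map_pow, pow_orderOf_eq_one, map_one, Module.End.one_apply] at h3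
  have h4 : (x ^ orderOf g - 1) • v = 0 := by rw [sub_smul, one_smul, ← h3, sub_self]
  exact sub_eq_zero.1 ((smul_eq_zero.1 h4).resolve_right hv0)

/-- the linear character of `⟨g⟩` with value `x` at `g` -/
theorem exists_psi (g : Γ) {x : ℂ} (hx : x ^ orderOf g = 1) :
    ∃ ψ : Subgroup.zpowers g →* ℂˣ, ((ψ ⟨g, Subgroup.mem_zpowers g⟩ : ℂˣ) : ℂ) = x := by
  have hx0 : x ≠ 0 := by
    rintro rfl
    rw [zero_pow (orderOf_pos g).ne'] at hx
    exact zero_ne_one hx
  set u : ℂˣ := Units.mk0 x hx0 with hu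
  set g' : Subgroup.zpowers g := ⟨g, Subgroup.mem_zpowers g⟩ with hg'
  have h1 : ∀ y : Subgroup.zpowers g, y ∈ Subgroup.zpowers g' := by
    rintro ⟨y, hy⟩
    obtain ⟨k, hk⟩ := Subgroup.mem_zpowers_iff.1 hy
    exact Subgroup.mem_zpowers_iff.2 ⟨k, Subtype.ext (by
      rw [Subgroup.coe_zpow]
      exact hk)⟩
  have h2 : orderOf u ∣ orderOf g' := by
    rw [hg', Subgroup.orderOf_mk, orderOf_dvd_iff_pow_eq_one]
    apply Units.ext
    rw [Units.val_pow_eq_pow_val, hu, Units.val_mk0, hx, Units.val_one]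
  exact ⟨monoidHomOfForallMemZpowers h1 h2, by rw [monoidHomOfForallMemZpowers_apply_gen, hu,
    Units.val_mk0]⟩

/-- the multiplicity of a linear character of `⟨g⟩` -/
theorem sum_mult {d : ℕ} (ρ : Representation ℂ Γ (Fin d → ℂ)) (g : Γ)
    (ψ : Subgroup.zpowers g →* ℂˣ) :
    ∑ᶠ h : Subgroup.zpowers g, ρ.character h * (((ψ h)⁻¹ : ℂˣ) : ℂ) =
      (mult ρ g ((ψ ⟨g, Subgroup.mem_zpowers g⟩ : ℂˣ) : ℂ) : ℂ) *
        (Nat.card (Subgroup.zpowers g) : ℂ) := by
  have : Fintype (Subgroup.zpowers g) := Fintype.ofFinite _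
  have hA : (ρ g) ^ orderOf g = 1 := by rw [← map_pow, pow_orderOf_eq_one, map_one]
  obtain ⟨l, h1, h2, h3, h4⟩ := exists_eig' (ρ g) (orderOf_pos g) hA
  set u : ℂˣ := ψ ⟨g, Subgroup.mem_zpowers g⟩ with hu
  have hud : u ^ orderOf g = 1 := by
    rw [hu, ← map_pow]
    have : (⟨g, Subgroup.mem_zpowers g⟩ : Subgroup.zpowers g) ^ orderOf g = 1 :=
      Subtype.ext (by rw [Subgroup.coe_pow]; exact pow_orderOf_eq_one g)
    rw [this, map_one]
  have hl : ∀ i, l i ^ orderOf g = 1 := by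
    intro i
    refine pow_of_mult ρ g ?_
    unfold mult
    rw [h4]
    have hi : i ∈ Finset.univ.filter fun j => l j = l i :=
      Finset.mem_filter.2 ⟨Finset.mem_univ _, rfl⟩
    exact (Finset.card_pos.2 ⟨i, hi⟩).ne'
  rw [finsum_eq_sum_of_fintype]
  have hfin : IsOfFinOrder g := isOfFinOrder_of_finite g
  rw [← Fintype.sum_equiv (finEquivZPowers hfin)
    (fun i : Fin (orderOf g) => ∑ j, (l j * ((u⁻¹ : ℂˣ) : ℂ)) ^ (i : ℕ)) _ (fun i => ?_)]
  · rw [Finset.sum_comm]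
    have h5 : ∀ j, ∑ i : Fin (orderOf g), (l j * ((u⁻¹ : ℂˣ) : ℂ)) ^ (i : ℕ) =
        if l j = (u : ℂ) then (orderOf g : ℂ) else 0 := by
      intro j
      rw [Fin.sum_univ_eq_sum_range (fun i => (l j * ((u⁻¹ : ℂˣ) : ℂ)) ^ i) (orderOf g)]
      split_ifs with hj
      · rw [hj]
        simp
      · have h6 : l j * ((u⁻¹ : ℂˣ) : ℂ) ≠ 1 := by
          intro h7
          apply hj
          have := congrArg (· * (u : ℂ)) h7
          simpa [mul_assoc] using this
        have h7 : (l j * ((u⁻¹ : ℂˣ) : ℂ)) ^ orderOf g = 1 := by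
          rw [mul_pow, hl, one_mul, ← Units.val_pow_eq_pow_val, inv_pow, hud, inv_one,
            Units.val_one]
        have h8 := mul_geom_sum (l j * ((u⁻¹ : ℂˣ) : ℂ)) (orderOf g)
        rw [h7, sub_self] at h8
        exact (mul_eq_zero.1 h8).resolve_left (sub_ne_zero.2 h6)
    simp only [h5]
    rw [← Finset.sum_filter, Finset.sum_const, nsmul_eq_mul]
    unfold mult
    rw [h4, Nat.card_zpowers]
  · rw [finEquivZPowers_apply]
    have e1 : ρ.character ((⟨g ^ (i : ℕ), by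
        exact Subgroup.npow_mem_zpowers g i⟩ : Subgroup.zpowers g) : Γ) = ∑ j, l j ^ (i : ℕ) := by
      change LinearMap.trace ℂ _ (ρ (g ^ (i : ℕ))) = _
      rw [map_pow, h3]
    have e2 : ψ ⟨g ^ (i : ℕ), Subgroup.npow_mem_zpowers g i⟩ = u ^ (i : ℕ) := by
      rw [hu, ← map_pow]
      rfl
    rw [e1, e2, Finset.sum_mul]
    refine Finset.sum_congr rfl fun j _ => ?_
    rw [mul_pow, ← inv_pow, Units.val_pow_eq_pow_val]

variable {κ : Type} [Fintype κ] {n : κ → ℕ} {r : ∀ k, Representation ℂ Γ (Fin (n k) → ℂ)}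

/-- **the induced character of a linear character of a cyclic subgroup** -/
theorem ind_expand (h : Fam r) (g : Γ) (ψ : Subgroup.zpowers g →* ℂˣ) (x : Γ) :
    induced (Subgroup.zpowers g) ψ x =
      ∑ k, (mult (r k) g ((ψ ⟨g, Subgroup.mem_zpowers g⟩ : ℂˣ) : ℂ) : ℂ) * (r k).character x := by
  have : Fintype Γ := Fintype.ofFinite Γ
  have hG : (Nat.card Γ : ℂ) ≠ 0 := by exact_mod_cast Nat.card_pos.ne'
  have h1 := Pool.Agent.W353.L1.inversion Finset.univ r (fun k _ => h.irr k)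
    (fun k _ l _ hkl => h.ne k l hkl) h.sum (induced (Subgroup.zpowers g) ψ)
    (fun a x => induced_conj _ ψ a x) x
  have h2 : ∀ k, ∑ y, induced (Subgroup.zpowers g) ψ y⁻¹ * (r k).character y =
      (mult (r k) g ((ψ ⟨g, Subgroup.mem_zpowers g⟩ : ℂˣ) : ℂ) : ℂ) * Nat.card Γ := by
    intro k
    rw [← induced_pair (Subgroup.zpowers g) ψ (χ := (r k).character)
      (fun g x => (r k).char_conj g x) (sum_mult (r k) g ψ)]
    refine Fintype.sum_equiv (Equiv.inv Γ) _ _ fun y => ?_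
    simp only [Equiv.inv_apply, inv_inv]
  simp only [h2] at h1
  have h3 : (Nat.card Γ : ℂ) * induced (Subgroup.zpowers g) ψ x = (Nat.card Γ : ℂ) *
      ∑ k, (mult (r k) g ((ψ ⟨g, Subgroup.mem_zpowers g⟩ : ℂˣ) : ℂ) : ℂ) * (r k).character x := by
    rw [h1, Finset.mul_sum]
    exact Finset.sum_congr rfl fun k _ => by ring
  exact mul_left_cancel₀ hG h3

end Pool.Agent.Q284.SP
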