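import Pool.Agent.Q284.SP.AB
import Pool.Agent.Q284.SP.Lin
import Pool.Agent.Q284.SP.Mul

/-!
# The quotient `ζ_K/ζ_F` and the orders of the Artin L-functions, nothing assumed
-/

set_option autoImplicit false
set_option linter.unusedSectionVars false

namespace Pool.Agent.Q284.SP

open NumberField IsDedekindDomain Filter Topology Complex Set
open Pool.Agent.Q92.AR Pool.Agent.H921R2.TatePole Pool.Agent.W353.NF
open Pool.Agent.Q92.RT (induced)
open Pool.Agent.Q286.RL (Fam CD cser)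
open Pool.Agent.Q284.T (LR cc lf ag mult NT rt)
open Pool.Agent.H541R3.ART (Irr)
open scoped Classical

variable {F K : Type} [Field F] [NumberField F] [Field K] [NumberField K] [Algebra F K]
  [IsGalois F K]

/-- a class function does not depend on the choice of the Frobenius elements -/
theorem class_frob {f : (K ≃ₐ[F] K) → ℂ} (hf : ∀ g x : K ≃ₐ[F] K, f (x * g * x⁻¹) = f g)
    {v : HeightOneSpectrum (𝓞 F)} (hv : Unramified K v) {g : K ≃ₐ[F] K} (hg : IsFrobenius v g)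
    (n : ℕ) : f (g ^ n) = f (frob K v ^ n) := by
  obtain ⟨h, hh⟩ := isFrobenius_conj hv hg (frob_spec (M := K) v)
  rw [hh]
  have h1 : (h⁻¹ * g * h) ^ n = h⁻¹ * g ^ n * h⁻¹⁻¹ := by
    rw [inv_inv, ← conj_inv_pow_helper]
  rw [h1, hf]
where
  conj_inv_pow_helper {G : Type} [Group G] {h g : G} {n : ℕ} :
      (h⁻¹ * g * h) ^ n = h⁻¹ * g ^ n * h := by
    have := conj_pow (i := n) (a := h⁻¹) (b := g)
    rwa [inv_inv] at this

variable {φ : HeightOneSpectrum (𝓞 F) → K ≃ₐ[F] K}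

/-- the two forms of the logarithm -/
theorem cser_eq (hφ : ∀ v, Unramified K v → IsFrobenius v (φ v)) {f : (K ≃ₐ[F] K) → ℂ}
    (hf : ∀ g x : K ≃ₐ[F] K, f (x * g * x⁻¹) = f g) (s : ℂ) :
    cser (lf (Unramified K)) (cc (Unramified K) φ f) s = ∑' x, artTerm K f s x := by
  set j : {v : HeightOneSpectrum (𝓞 F) // Unramified K v} × ℕ → HeightOneSpectrum (𝓞 F) × ℕ :=
    fun x => (x.1.1, x.2) with hj
  have hinj : Function.Injective j := by
    rintro ⟨⟨a, ha⟩, n⟩ ⟨⟨b, hb⟩, m⟩ h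
    simp only [hj, Prod.mk.injEq] at h
    obtain ⟨h1, h2⟩ := h
    subst h1
    subst h2
    rfl
  have hsupp : Function.support (artTerm K f s) ⊆ Set.range j := by
    rintro ⟨v, n⟩ h
    by_contra h1
    apply h
    unfold artTerm
    rw [if_neg]
    intro hv
    exact h1 ⟨(⟨v, hv⟩, n), rfl⟩
  rw [← hinj.tsum_eq hsupp]
  unfold cser
  refine tsum_congr fun x => ?_
  obtain ⟨⟨v, hv⟩, n⟩ := x
  unfold artTerm cc lf Pool.Agent.W189.LC.fr
  simp only [hj]
  rw [if_pos hv, class_frob hf hv (hφ v hv)]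
  have hq : (nm v : ℂ) ≠ 0 := by exact_mod_cast nm_ne_zero v
  have h1 : (Ideal.absNorm v.asIdeal : ℂ) ^ (((n + 1 : ℕ) : ℂ) * s) =
      exp (s * ((((n : ℝ) + 1) * Real.log (nm v) : ℝ) : ℂ)) := by
    change (nm v : ℂ) ^ (((n + 1 : ℕ) : ℂ) * s) = _
    rw [Complex.cpow_def_of_ne_zero hq]
    congr 1
    push_cast
    rw [← Complex.natCast_log]
    ring
  rw [h1, Complex.exp_neg]
  field_simp

theorem LR_eq (hφ : ∀ v, Unramified K v → IsFrobenius v (φ v)) {d : ℕ}
    (ρ : Representation ℂ (K ≃ₐ[F] K) (Fin d → ℂ)) {s : ℂ} (hs : 1 < s.re) :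
    LR (Unramified K) φ ρ s = artinL K ρ.character s := by
  rw [(Q284.T.LR_data (P := Unramified K) (φ := φ) ρ).2 s hs,
    cser_eq hφ (fun g x => ρ.char_conj g x)]
  rfl

theorem ag_conj (g x : K ≃ₐ[F] K) : ag (x * g * x⁻¹) = ag g := by
  unfold ag
  have : x * g * x⁻¹ = 1 ↔ g = 1 := by
    constructor
    · intro h
      have h2 : g = x⁻¹ * (x * g * x⁻¹) * x := by group
      rw [h2, h]
      group
    · rintro rfl
      group
  simp only [this]

theorem LX_eq (hφ : ∀ v, Unramified K v → IsFrobenius v (φ v)) {s : ℂ} (hs : 1 < s.re) :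
    Q284.M.LX (Unramified K) (fun v => rt (φ v)) s = artinL K (ag (Γ := K ≃ₐ[F] K)) s := by
  rw [(Q284.T.LX_data (P := Unramified K) (φ := φ)).2 s hs, cser_eq hφ ag_conj]
  rfl

/-- differentiability of the L-function of the augmentation character -/
theorem ag_diff {s : ℂ} (hs : 1 < s.re) :
    ContinuousAt (artinL K (ag (Γ := K ≃ₐ[F] K))) s := by
  obtain ⟨φ0, hφ0⟩ : ∃ φ0 : HeightOneSpectrum (𝓞 F) → K ≃ₐ[F] K, ∀ v, IsFrobenius v (φ0 v) :=
    ⟨fun v => frob K v, fun v => frob_spec v⟩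
  have hφ : ∀ v : HeightOneSpectrum (𝓞 F), Unramified K v → IsFrobenius v (φ0 v) :=
    fun v _ => hφ0 v
  have h1 := ((Q284.T.LX_data (F := F) (Γ := K ≃ₐ[F] K) (P := Unramified K)
    (φ := φ0)).1.ser_diff hs)
  have hopen : IsOpen {z : ℂ | 1 < z.re} := isOpen_lt continuous_const Complex.continuous_re
  have h2 : artinL K (ag (Γ := K ≃ₐ[F] K)) =ᶠ[𝓝 s] fun z =>
      exp (cser (lf (Unramified K)) (cc (Unramified K) φ0 ag) z) := by
    filter_upwards [hopen.mem_nhds hs] with z hz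
    rw [cser_eq hφ ag_conj]
    rfl
  exact (h1.continuousAt.cexp).congr h2.symm

variable {κ : Type} [Fintype κ] {n : κ → ℕ}
  {r : ∀ k, Representation ℂ (K ≃ₐ[F] K) (Fin (n k) → ℂ)} {L : κ → ℂ → ℂ}

/-- existence of the continuation -/
theorem exists_cont {d : ℕ} (ρ : Representation ℂ (K ≃ₐ[F] K) (Fin d → ℂ))
    (hρ : ρ.IsIrreducible) : ∃ f : ℂ → ℂ, Continues f (artinL K ρ.character) :=
  mero recip hecke brauer (χ := ρ.character) ⟨d, ρ, hρ, rfl⟩

/-- sums of orders -/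
theorem order_prod {f : κ → ℂ → ℂ} {z : ℂ} (hm : ∀ k, MeromorphicAt (f k) z)
    (ht : ∀ k, meromorphicOrderAt (f k) z ≠ ⊤) (S : Finset κ) (c : κ → ℕ) :
    meromorphicOrderAt (fun s => ∏ k ∈ S, f k s ^ c k) z =
      ((∑ k ∈ S, (c k : ℤ) * (meromorphicOrderAt (f k) z).untop₀ : ℤ) : WithTop ℤ) := by
  have h2 := meromorphicOrderAt_fun_prod (s := S) (f := fun k => (f k) ^ c k) (x := z)
    fun k _ => (hm k).pow (c k)
  have h3 : meromorphicOrderAt (fun s => ∏ k ∈ S, f k s ^ c k) z =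
      ∑ k ∈ S, meromorphicOrderAt ((f k) ^ c k) z := h2
  rw [h3]
  have h4 : ∀ k, meromorphicOrderAt ((f k) ^ c k) z =
      (((c k : ℤ) * (meromorphicOrderAt (f k) z).untop₀ : ℤ) : WithTop ℤ) := by
    intro k
    rw [meromorphicOrderAt_pow (hm k)]
    obtain ⟨m, hm'⟩ := WithTop.ne_top_iff_exists.1 (ht k)
    rw [← hm', WithTop.untop₀_coe]
    norm_cast
  simp only [h4]
  push_cast
  rfl

/-- **Hecke: the products which are L-functions of nontrivial characters of cyclic groups have no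
poles for `Re s > 0`.** -/
theorem hecke_orders (h : Fam r) (hL : ∀ k, Continues (L k) (artinL K (r k).character))
    (g : K ≃ₐ[F] K) {x : ℂ} (hx : x ≠ 1) {s : ℂ} (hs : 0 < s.re) :
    0 ≤ ∑ k, (mult (r k) g x : ℤ) * (meromorphicOrderAt (L k) s).untop₀ := by
  by_cases hx1 : x ^ orderOf g = 1
  · obtain ⟨ψ, hψ⟩ := exists_psi g hx1
    have hψ1 : ψ ≠ 1 := by
      rintro rfl
      exact hx (by rw [← hψ]; rfl)
    obtain ⟨f, hf, hf2, -⟩ := lin (K := F) (M := K) (Subgroup.zpowers g) ψ hψ1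
    have h1 : Continues (fun s => ∏ k, L k s ^ mult (r k) g x)
        (artinL K (induced (Subgroup.zpowers g) ψ)) := by
      refine ⟨fun s hs => MeromorphicAt.fun_prod fun k _ => ((hL k).1 s hs).fun_pow _,
        fun s hs => ?_⟩
      have e1 : induced (Subgroup.zpowers g) ψ =
          fun y => ∑ k, (mult (r k) g x : ℂ) * (r k).character y := by
        funext y
        rw [ind_expand h g ψ y, hψ]
      rw [e1, artinL_sum Finset.univ (fun k => mult (r k) g x) (fun k => (r k).character) hs]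
      exact Finset.prod_congr rfl fun k _ => by rw [(hL k).2 s hs]
    have h2 := h1.order_eq hf (fun _ _ => rfl) s
    rw [order_prod (fun k => (hL k).1 s (Set.mem_univ _))
      (fun k => (hL k).order_ne_top (fun s _ => artinL_ne_zero _ s) s)] at h2
    have h3 := (hf2 s hs).meromorphicOrderAt_nonneg
    rw [← h2] at h3
    exact_mod_cast h3
  · refine (Finset.sum_eq_zero fun k _ => ?_).ge
    have : mult (r k) g x = 0 := by
      by_contra h0
      exact hx1 (pow_of_mult (r k) g h0)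
    rw [this]
    simp

/-- **Aramata and Brauer**: the continuation of the L-function of the augmentation character is
holomorphic for `Re s > 0`, of polynomial growth for `Re s ≥ 1/4`. -/
theorem exists_Z {Q : ℂ → ℂ} (hQ : Continues Q (artinL K (ag (Γ := K ≃ₐ[F] K)))) :
    ∃ Z : ℂ → ℂ, (∀ s : ℂ, 1 < s.re → Z s = artinL K (ag (Γ := K ≃ₐ[F] K)) s) ∧
      (∀ s : ℂ, 0 < s.re → AnalyticAt ℂ Z s) ∧ Poly (1 / 4) Z := by
  obtain ⟨ι, _, A, ψ, m, hψ, hab⟩ := ab (K ≃ₐ[F] K)
  choose f hf hf2 hf3 using fun i => lin (K := F) (M := K) (A i) (ψ i) (hψ i)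
  set N : ℕ := Nat.card (K ≃ₐ[F] K) with hN
  have hN0 : 0 < N := Nat.card_pos
  set P : ℂ → ℂ := fun s => ∏ i, f i s ^ m i with hP
  -- the identity
  have hQN : Continues (fun s => Q s ^ N) (fun s => artinL K (ag (Γ := K ≃ₐ[F] K)) s ^ N) :=
    ⟨fun s hs => (hQ.1 s hs).fun_pow _, fun s hs => by
      change Q s ^ N = _
      rw [hQ.2 s hs]⟩
  have hPN : Continues P (fun s => artinL K (ag (Γ := K ≃ₐ[F] K)) s ^ N) := by
    refine ⟨fun s hs => MeromorphicAt.fun_prod fun i _ => ((hf i).1 s hs).fun_pow _, fun s hs => ?_⟩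
    have e1 : (fun y => ∑ i : Unit, ((fun _ => N) i : ℂ) * (fun _ : Unit => ag (Γ := K ≃ₐ[F] K)) i y) =
        fun y => ∑ i, (m i : ℂ) * induced (A i) (ψ i) y := by
      funext y
      rw [← hab y]
      simp [ag, hN]
    have e2 := artinL_sum (M := K) (Finset.univ : Finset Unit) (fun _ => N)
      (fun _ => ag (Γ := K ≃ₐ[F] K)) hs
    have e3 := artinL_sum (M := K) Finset.univ m (fun i => induced (A i) (ψ i)) hs
    simp only [Finset.univ_unique, Finset.prod_singleton, Finset.sum_singleton] at e1 e2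
    change P s = artinL K (ag (Γ := K ≃ₐ[F] K)) s ^ N
    rw [← e2, e1, e3, hP]
    exact Finset.prod_congr rfl fun i _ => by rw [(hf i).2 s hs]
  have hev : ∀ z : ℂ, (fun s => Q s ^ N) =ᶠ[𝓝[≠] z] P := fun z =>
    hQN.eventuallyEq hPN (fun _ _ => rfl) z
  have hPan : ∀ s : ℂ, 0 < s.re → AnalyticAt ℂ P s := fun s hs =>
    Finset.analyticAt_fun_prod _ fun i _ => (hf2 i s hs).fun_pow _
  have hQm : ∀ z : ℂ, MeromorphicAt Q z := fun z => hQ.1 z (Set.mem_univ _)
  have hord : ∀ s : ℂ, 0 < s.re → 0 ≤ meromorphicOrderAt Q s := by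
    intro s hs
    have h1 : meromorphicOrderAt (Q ^ N) s = meromorphicOrderAt P s :=
      meromorphicOrderAt_congr (hev s)
    have h2 := (hPan s hs).meromorphicOrderAt_nonneg
    rw [← h1, meromorphicOrderAt_pow (hQm s)] at h2
    have h3 : meromorphicOrderAt Q s ≠ ⊤ :=
      hQ.order_ne_top (fun s _ => artinL_ne_zero _ s) s
    obtain ⟨a, ha⟩ := WithTop.ne_top_iff_exists.1 h3
    rw [← ha] at h2 ⊢
    have h4 : (0 : ℤ) ≤ (N : ℤ) * a := by exact_mod_cast h2
    have h5 : (0 : ℤ) ≤ a := by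
      by_contra h6
      push Not at h6
      have : (0 : ℤ) < N := by exact_mod_cast hN0
      nlinarith
    exact_mod_cast h5
  set Z : ℂ → ℂ := toMeromorphicNFOn Q Set.univ with hZ
  have hZQ : ∀ z : ℂ, Z =ᶠ[𝓝[≠] z] Q := fun z =>
    (show MeromorphicOn Q Set.univ from hQ.1).toMeromorphicNFOn_eq_self_on_nhdsNE (Set.mem_univ z)
  have hZan : ∀ s : ℂ, 0 < s.re → AnalyticAt ℂ Z s := by
    intro s hs
    have h1 : MeromorphicNFAt Z s := (meromorphicNFOn_toMeromorphicNFOn Q Set.univ) (Set.mem_univ s)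
    rw [← h1.meromorphicOrderAt_nonneg_iff_analyticAt, meromorphicOrderAt_congr (hZQ s)]
    exact hord s hs
  refine ⟨Z, fun s hs => ?_, hZan, ?_⟩
  · have h1 : Z =ᶠ[𝓝[≠] s] artinL K (ag (Γ := K ≃ₐ[F] K)) := by
      have hopen : IsOpen {z : ℂ | 1 < z.re} := isOpen_lt continuous_const Complex.continuous_re
      filter_upwards [hZQ s, nhdsWithin_le_nhds (hopen.mem_nhds hs)] with z h1 h2
      rw [h1, hQ.2 z h2]
    have h2 := ((hZan s (by linarith)).continuousAt.eventuallyEq_nhds_iff_eventuallyEq_nhdsNE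
      (ag_diff hs)).1 h1
    exact h2.self_of_nhds
  · have hZP : ∀ s : ℂ, 0 < s.re → Z s ^ N = P s := by
      intro s hs
      have h1 : (fun s => Z s ^ N) =ᶠ[𝓝[≠] s] P := by
        filter_upwards [hZQ s, hev s] with z h1 h2
        rw [← h2, h1]
      have h2 := ((((hZan s hs).fun_pow N).continuousAt).eventuallyEq_nhds_iff_eventuallyEq_nhdsNE
        (hPan s hs).continuousAt).1 h1
      exact h2.self_of_nhds
    obtain ⟨C, k, hC, hb⟩ := Poly.prod (a := 1 / 4) (f := fun i s => f i s ^ m i) Finset.univ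
      fun i _ => (hf3 i).pow (m i)
    refine ⟨1 + C, k, by positivity, fun s hs => ?_⟩
    have h1 := hb s hs
    have h2 : ‖Z s‖ ^ N ≤ C * (1 + ‖s‖) ^ k := by
      rw [← norm_pow, hZP s (by linarith)]
      exact h1
    have h3 : (1 : ℝ) ≤ (1 + ‖s‖) ^ k := one_le_pow₀ (by linarith [norm_nonneg s])
    rcases le_or_gt ‖Z s‖ 1 with h4 | h4
    · nlinarith
    · have h5 : ‖Z s‖ ≤ ‖Z s‖ ^ N := le_self_pow₀ h4.le hN0.ne'
      nlinarith

end Pool.Agent.Q284.SP
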