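import Pool.Agent.Y772.FE.Main
import Pool.Agent.TH270.MS.GrowthLeft
import Pool.Agent.Q84.AR.Hecke
import Pool.Agent.Q264.AR.Prim

/-!
# Growth of the L-functions of nontrivial ray class characters

They are entire and of polynomial growth in the half-plane `Re s ≥ 0`.
-/

set_option autoImplicit false
set_option linter.unusedSectionVars false

namespace Pool.Agent.Q284.SP

open NumberField IsDedekindDomain Filter Topology Complex Set
open Pool.Agent.Q92.AR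
open Pool.Agent.Y773 (LI GG TPos FEd)
open Pool.Agent.Q84.AR (psi psi_apply dv dv_apply dv_span cop_v GG_inv)

/-- entire, of polynomial growth in a half-plane -/
def Poly (a : ℝ) (f : ℂ → ℂ) : Prop := ∃ (C : ℝ) (k : ℕ), 0 ≤ C ∧ ∀ s : ℂ, a ≤ s.re →
  ‖f s‖ ≤ C * (1 + ‖s‖) ^ k

theorem Poly.mul {a : ℝ} {f g : ℂ → ℂ} (hf : Poly a f) (hg : Poly a g) :
    Poly a fun s => f s * g s := by
  obtain ⟨C, k, hC, h⟩ := hf
  obtain ⟨C', k', hC', h'⟩ := hg
  refine ⟨C * C', k + k', by positivity, fun s hs => ?_⟩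
  rw [norm_mul, pow_add]
  calc ‖f s‖ * ‖g s‖ ≤ (C * (1 + ‖s‖) ^ k) * (C' * (1 + ‖s‖) ^ k') :=
        mul_le_mul (h s hs) (h' s hs) (norm_nonneg _) (by positivity)
    _ = _ := by ring

theorem Poly.mono {a b : ℝ} {f : ℂ → ℂ} (hf : Poly a f) (hab : a ≤ b) : Poly b f := by
  obtain ⟨C, k, hC, h⟩ := hf
  exact ⟨C, k, hC, fun s hs => h s (hab.trans hs)⟩

theorem Poly.of_bound {a C : ℝ} {f : ℂ → ℂ} (h : ∀ s : ℂ, a ≤ s.re → ‖f s‖ ≤ C) : Poly a f :=
  ⟨max C 0, 0, le_max_right _ _, fun s hs => by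
    rw [pow_zero, mul_one]
    exact (h s hs).trans (le_max_left _ _)⟩

theorem Poly.prod {ι : Type} {a : ℝ} {f : ι → ℂ → ℂ} (S : Finset ι) (h : ∀ i ∈ S, Poly a (f i)) :
    Poly a fun s => ∏ i ∈ S, f i s := by
  classical
  induction S using Finset.induction_on with
  | empty => exact Poly.of_bound (C := 1) fun s _ => by simp
  | insert i S hi ih =>
    simp only [Finset.prod_insert hi]
    exact (h i (Finset.mem_insert_self _ _)).mul
      (ih fun j hj => h j (Finset.mem_insert_of_mem hj))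

theorem Poly.pow {a : ℝ} {f : ℂ → ℂ} (hf : Poly a f) (n : ℕ) : Poly a fun s => f s ^ n := by
  have := Poly.prod (a := a) (f := fun _ : ℕ => f) (Finset.range n) fun _ _ => hf
  simpa using this

theorem Poly.congr {a : ℝ} {f g : ℂ → ℂ} (hf : Poly a f) (h : ∀ s : ℂ, a ≤ s.re → f s = g s) :
    Poly a g := by
  obtain ⟨C, k, hC, h'⟩ := hf
  exact ⟨C, k, hC, fun s hs => by rw [← h s hs]; exact h' s hs⟩

/-- functions with a functional equation and an absolutely convergent series -/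
theorem poly_of_FEd {ι : Type} [Fintype ι] {R : ℝ} (hR : 1 ≤ R) {e : ι → ℕ} {F : ℂ → ℂ}
    (hF : FEd R e F) {B : ℝ} (hB : ∀ s : ℂ, 3 / 2 ≤ s.re → ‖F s‖ ≤ B) : Poly (-1 / 2) F := by
  have hB0 : 0 ≤ B := (norm_nonneg _).trans (hB (3 / 2) (by norm_num))
  have hF' : FEd (R * 1) e F := by rwa [mul_one]
  refine ⟨B * R * 3 ^ Fintype.card ι, Fintype.card ι, by positivity, fun s hs => ?_⟩
  have h3 : ‖s + 3‖ ≤ 3 * (1 + ‖s‖) := by
    refine (norm_add_le _ _).trans ?_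
    have : ‖(3 : ℂ)‖ = 3 := by norm_num
    rw [this]
    linarith [norm_nonneg s]
  have h5 : 1 ≤ (1 + ‖s‖) ^ Fintype.card ι := one_le_pow₀ (by linarith [norm_nonneg s])
  have h6 : (1 : ℝ) ≤ 3 ^ Fintype.card ι := one_le_pow₀ (by norm_num)
  rcases le_or_gt s.re (3 / 2) with h | h
  · have h1 := Pool.Agent.Y772.FE.HH_bound hR le_rfl hF' hB s hs h
    unfold Pool.Agent.Y772.FE.HH at h1
    rw [norm_mul, norm_mul, ofReal_one, one_cpow, norm_one, mul_one, norm_inv, norm_pow] at h1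
    have h2 : 0 < ‖s + 3‖ := norm_pos_iff.2 (Pool.Agent.Y772.FE.sp3_ne (by linarith))
    rw [← div_eq_mul_inv, div_le_iff₀ (by positivity)] at h1
    calc ‖F s‖ ≤ B * R * ‖s + 3‖ ^ Fintype.card ι := h1
      _ ≤ B * R * (3 * (1 + ‖s‖)) ^ Fintype.card ι := by gcongr
      _ = _ := by rw [mul_pow]; ring
  · refine (hB s h.le).trans ?_
    calc B = B * 1 * 1 * 1 := by ring
      _ ≤ B * R * 3 ^ Fintype.card ι * (1 + ‖s‖) ^ Fintype.card ι := by gcongr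

section
variable {K : Type} [Field K] [NumberField K]

open Pool.Agent.Y773 Pool.Agent.Q246

/-- the gamma factors on a vertical line -/
theorem GG_line {ι : Type} [Fintype ι] {R : ℝ} (hR : 0 < R) (e : ι → ℕ) {b : ℝ} (hb : 0 < b) :
    ∃ C : ℝ, 0 ≤ C ∧ ∀ s : ℂ, s.re = b → ‖GG R e s‖ ≤ C := by
  refine ⟨R ^ (b / 2) * ∏ i, (Real.pi ^ (-(b + e i) / 2) * Real.Gamma ((b + e i) / 2)), ?_, ?_⟩
  · refine mul_nonneg (Real.rpow_nonneg hR.le _) (Finset.prod_nonneg fun i _ => ?_)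
    have : (0 : ℝ) ≤ e i := Nat.cast_nonneg _
    exact mul_nonneg (Real.rpow_nonneg Real.pi_pos.le _) (Real.Gamma_pos_of_pos (by linarith)).le
  · intro s hs
    unfold GG
    rw [norm_mul, norm_prod, Complex.norm_cpow_eq_rpow_re_of_pos hR]
    have e1 : (s / 2).re = b / 2 := by
      rw [← hs]; simp
    rw [e1]
    refine mul_le_mul_of_nonneg_left ?_ (Real.rpow_nonneg hR.le _)
    refine Finset.prod_le_prod (fun _ _ => norm_nonneg _) fun i _ => ?_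
    have h0 : (0 : ℝ) ≤ e i := Nat.cast_nonneg _
    rw [Gammaℝ_def, norm_mul, Complex.norm_cpow_eq_rpow_re_of_pos Real.pi_pos]
    have e2 : (-(s + e i) / 2).re = -(b + e i) / 2 := by
      rw [← hs]; simp
    have e3 : ((s + e i) / 2).re = (b + e i) / 2 := by
      rw [← hs]; simp
    rw [e2]
    refine mul_le_mul_of_nonneg_left ?_ (Real.rpow_nonneg Real.pi_pos.le _)
    have h1 := Pool.Agent.TH270.MS.GrowL.norm_Gamma_le (z := (s + e i) / 2) (by rw [e3]; linarith)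
    rwa [e3] at h1

/-- the completed L-function of a nontrivial unramified character is bounded in vertical strips -/
theorem U_bounded {R : ℝ} (hR : 0 < R) {ι : Type} [Fintype ι] {e : ι → ℕ} {U L : ℂ → ℂ} {w : ℂ}
    (hU : Differentiable ℂ U) (hw : ‖w‖ = 1) (hUL : ∀ s : ℂ, 1 < s.re → U s = GG R e s * L s)
    (hfe : ∀ s, U s = w * (starRingEnd ℂ) (U (1 - (starRingEnd ℂ) s)))
    (hb : ∀ a b : ℝ, ∃ C : ℝ, 0 ≤ C ∧ ∀ s : ℂ, a ≤ s.re → s.re ≤ b → ‖U s‖ ≤ C * (1 + ‖s‖) ^ 2)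
    {B : ℝ} (hB : ∀ s : ℂ, 3 / 2 ≤ s.re → ‖L s‖ ≤ B) (a b : ℝ) :
    ∃ C : ℝ, ∀ s : ℂ, a ≤ s.re → s.re ≤ b → ‖U s‖ ≤ C := by
  have hB0 : 0 ≤ B := (norm_nonneg _).trans (hB (3 / 2) (by norm_num))
  set c : ℝ := max |a| |b| + 2 with hc
  have hc2 : 2 ≤ c := by rw [hc]; linarith [le_max_left |a| |b|, abs_nonneg a]
  have hca : 1 - c ≤ a := by
    rw [hc]; linarith [le_max_left |a| |b|, neg_abs_le a]
  have hcb : b ≤ c := by
    rw [hc]; linarith [le_max_right |a| |b|, le_abs_self b]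
  obtain ⟨C1, hC1, h1⟩ := GG_line hR e (b := c) (by linarith)
  obtain ⟨C2, hC2, h2⟩ := hb (1 - c) c
  have hright : ∀ s : ℂ, s.re = c → ‖U s‖ ≤ C1 * B := by
    intro s hs
    rw [hUL s (by linarith), norm_mul]
    exact mul_le_mul (h1 s hs) (hB s (by linarith)) (norm_nonneg _) hC1
  refine ⟨C1 * B, fun s hs1 hs2 => ?_⟩
  refine PhragmenLindelof.vertical_strip (f := U) (a := 1 - c) (b := c) ?_ ?_ ?_ ?_
    (hca.trans hs1) (hs2.trans hcb)
  · exact hU.diffContOnCl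
  · refine ⟨Real.pi / (2 * (2 * c)), ?_, 4 * (2 * c) / Real.pi + 2, ?_⟩
    · have : c - (1 - c) = 2 * c - 1 := by ring
      rw [this]
      apply div_lt_div_of_pos_left Real.pi_pos (by linarith) (by linarith)
    refine Asymptotics.IsBigO.of_bound (C2 * (2 + c) ^ 2) ?_
    rw [eventually_inf_principal]
    refine Eventually.of_forall fun z hz => ?_
    have hz1 : 1 - c ≤ z.re := (mem_preimage.1 hz).1.le
    have hz2 : z.re ≤ c := (mem_preimage.1 hz).2.le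
    refine (h2 z hz1 hz2).trans ?_
    rw [Real.norm_of_nonneg (Real.exp_pos _).le]
    have h3 : 1 + ‖z‖ ≤ (2 + c) * Real.exp (|z.im|) := by
      have h4 := Complex.norm_le_abs_re_add_abs_im z
      have h5 : |z.re| ≤ c := abs_le.2 ⟨by linarith, hz2⟩
      have h6 := Real.add_one_le_exp |z.im|
      have h7 : 0 ≤ |z.im| := abs_nonneg _
      nlinarith [Real.exp_pos |z.im|]
    have h8 : (1 + ‖z‖) ^ 2 ≤ (2 + c) ^ 2 * Real.exp (2 * |z.im|) := by
      calc (1 + ‖z‖) ^ 2 ≤ ((2 + c) * Real.exp (|z.im|)) ^ 2 :=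
            pow_le_pow_left₀ (by positivity) h3 2
        _ = _ := by rw [mul_pow, ← Real.exp_nat_mul]; norm_num
    have h9 : 2 * |z.im| ≤ (4 * (2 * c) / Real.pi + 2) * Real.exp (Real.pi / (2 * (2 * c)) * |z.im|) := by
      have h10 := Real.add_one_le_exp (Real.pi / (2 * (2 * c)) * |z.im|)
      have h11 : 0 ≤ |z.im| := abs_nonneg _
      have h12 : 2 * |z.im| = (4 * (2 * c) / Real.pi) * (Real.pi / (2 * (2 * c)) * |z.im|) := by
        field_simp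
        ring
      have h13 : 0 ≤ 4 * (2 * c) / Real.pi := by positivity
      have h14 : 0 < Real.exp (Real.pi / (2 * (2 * c)) * |z.im|) := Real.exp_pos _
      rw [h12]
      nlinarith
    calc C2 * (1 + ‖z‖) ^ 2 ≤ C2 * ((2 + c) ^ 2 * Real.exp (2 * |z.im|)) := by gcongr
      _ ≤ C2 * ((2 + c) ^ 2 * Real.exp ((4 * (2 * c) / Real.pi + 2) *
          Real.exp (Real.pi / (2 * (2 * c)) * |z.im|))) := by gcongr
      _ = _ := by ring
  · intro z hz
    rw [hfe z, norm_mul, hw, one_mul, RCLike.norm_conj]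
    refine hright _ ?_
    simp only [sub_re, one_re, conj_re]
    rw [hz]
    ring
  · exact fun z hz => hright z hz

open Pool.Agent.Y772.DK in
/-- the L-function is bounded for `Re s ≥ 3/2` -/
theorem LI_bounded {ψ : Ideal (𝓞 K) →*₀ ℂ} (hψ : ∀ 𝔞, ‖ψ 𝔞‖ ≤ 1) :
    ∃ B : ℝ, ∀ s : ℂ, 3 / 2 ≤ s.re → ‖LI ψ s‖ ≤ B := by
  obtain ⟨A, hA, hdir⟩ := Pool.Agent.Y772.DK.t_dirK K
  obtain ⟨hd1, hd2, hd3, hd4, hd5, hd6, hd7, -⟩ := hdir ψ hψ
  exact ⟨A, fun s hs => hd5 s hs⟩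

/-- entire and of polynomial growth: a primitive nontrivial character -/
theorem poly_prim {𝔣 : Ideal (𝓞 K)} {e : InfinitePlace K → ℕ} {ψ : Ideal (𝓞 K) →*₀ ℂ}
    (ne_bot : 𝔣 ≠ ⊥) (e_le : ∀ w, e w ≤ 1) (e_complex : ∀ w : InfinitePlace K, w.IsComplex → e w = 0)
    (supp : ∀ 𝔞 : Ideal (𝓞 K), 𝔞 ≠ ⊥ → (ψ 𝔞 ≠ 0 ↔ IsCoprime 𝔞 𝔣))
    (sig : ∀ x : 𝓞 K, x ≠ 0 → x - 1 ∈ 𝔣 → ψ (Ideal.span {x}) =
      ∏ w : InfinitePlace K, (((SignType.sign (w.embedding (x : K)).re : SignType) : ℤ) : ℂ) ^ e w)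
    (prim : ∀ 𝔤 : Ideal (𝓞 K), 𝔤 ∣ 𝔣 → 𝔤 ≠ 𝔣 → ∃ x : 𝓞 K, x - 1 ∈ 𝔤 ∧ Pos (x : K) ∧
      IsCoprime (Ideal.span {x}) 𝔣 ∧ ψ (Ideal.span {x}) ≠ 1)
    (hnt : ¬ ∀ 𝔞 : Ideal (𝓞 K), 𝔞 ≠ ⊥ → ψ 𝔞 = 1) :
    (∀ 𝔞, ‖ψ 𝔞‖ ≤ 1) ∧ ∃ g : ℂ → ℂ, Differentiable ℂ g ∧ (∀ s : ℂ, 1 < s.re → LI ψ s = g s) ∧
      Poly (-1 / 2) g := by
  classical
  have hsg : ∀ x : K, G.sg e x =
      ∏ w : InfinitePlace K, (((SignType.sign (w.embedding x).re : SignType) : ℤ) : ℂ) ^ e w := by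
    intro x
    unfold G.sg
    refine Finset.prod_congr rfl fun w _ => ?_
    rcases w.isReal_or_isComplex with hw | hw
    · rw [G.rl_of_isReal hw]
    · rw [e_complex w hw, pow_zero, pow_zero]
  have hsig : ∀ x : 𝓞 K, x ≠ 0 → x - 1 ∈ 𝔣 → ψ (Ideal.span {x}) = G.sg e (x : K) := by
    intro x h0 h1
    rw [sig x h0 h1, hsg]
  have hray : ∀ x : 𝓞 K, x ≠ 0 → x - 1 ∈ 𝔣 → TPos K x → ψ (Ideal.span {x}) = 1 := by
    intro x h0 h1 h2
    rw [hsig x h0 h1, G.sg_TPos e h0 h2]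
  have hp : G.IsPrimChar K 𝔣 ψ := ⟨ne_bot, supp, hray, prim⟩
  have hnorm := hp.norm_le_one Pool.Agent.Y772.G.t_sig
  refine ⟨hnorm, ?_⟩
  obtain ⟨B, hB⟩ := LI_bounded hnorm
  have hD : (1 : ℝ) ≤ ((Ideal.absNorm (differentIdeal ℤ (𝓞 K)) : ℕ) : ℝ) := by
    have : Ideal.absNorm (differentIdeal ℤ (𝓞 K)) ≠ 0 := by
      rw [Ne, Ideal.absNorm_eq_zero_iff]
      exact differentIdeal_ne_bot
    exact_mod_cast Nat.pos_of_ne_zero this
  by_cases htop : 𝔣 = ⊤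
  · have hUC : Unr.UC e ψ := by
      refine ⟨e_le, e_complex, fun 𝔞 h0 => ?_, fun x h0 => hsig x h0 (by rw [htop]; trivial)⟩
      refine (supp 𝔞 h0).2 ?_
      rw [htop]
      exact Ideal.isCoprime_iff_sup_eq.2 (by simp)
    obtain ⟨U, w, hU, hw, hUL, hfe, hbd⟩ := hUC.fe
    have ht : ¬ Unr.Triv ψ := hnt
    have hUL' : ∀ s : ℂ, 1 < s.re → U s =
        GG (Ideal.absNorm (differentIdeal ℤ (𝓞 K)) : ℝ) (G.ex e) s * LI ψ s := by
      intro s hs
      have h1 := hUL s hs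
      rwa [if_neg ht, pow_zero, one_mul] at h1
    set R : ℝ := (Ideal.absNorm (differentIdeal ℤ (𝓞 K)) : ℝ) with hR
    have hR0 : 0 < R := by linarith
    have hR0c : (R : ℂ) ≠ 0 := by exact_mod_cast hR0.ne'
    -- the inverse of the gamma factor
    set Gi : ℂ → ℂ := fun s => (R : ℂ) ^ (-(s / 2)) * ∏ i, (Gammaℝ (s + G.ex e i))⁻¹ with hGi
    have hGid : Differentiable ℂ Gi := by
      apply Differentiable.mul
      · intro s
        exact ((differentiableAt_id.div_const 2).neg).const_cpow (Or.inl hR0c)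
      · refine Differentiable.fun_finsetProd fun i _ => ?_
        exact differentiable_Gammaℝ_inv.comp (differentiable_id.add_const _)
    have hGG : ∀ s : ℂ, (∀ i, Gammaℝ (s + G.ex e i) ≠ 0) → GG R (G.ex e) s * Gi s = 1 := by
      intro s hs
      rw [hGi]
      unfold GG
      have h1 : (R : ℂ) ^ (s / 2) * (R : ℂ) ^ (-(s / 2)) = 1 := by
        rw [← Complex.cpow_add _ _ hR0c, add_neg_cancel, Complex.cpow_zero]
      have h2 : (∏ i, Gammaℝ (s + G.ex e i)) * ∏ i, (Gammaℝ (s + G.ex e i))⁻¹ = 1 := by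
        rw [← Finset.prod_mul_distrib]
        exact Finset.prod_eq_one fun i _ => mul_inv_cancel₀ (hs i)
      calc _ = ((R : ℂ) ^ (s / 2) * (R : ℂ) ^ (-(s / 2))) *
          ((∏ i, Gammaℝ (s + G.ex e i)) * ∏ i, (Gammaℝ (s + G.ex e i))⁻¹) := by ring
        _ = 1 := by rw [h1, h2, one_mul]
    have him : ∀ s : ℂ, s.im ≠ 0 → ∀ i, Gammaℝ (s + G.ex e i) ≠ 0 := by
      intro s hs i
      refine H370.DL.Gammaℝ_ne_zero_of_im ?_
      simpa using hs
    have hre : ∀ s : ℂ, 0 < s.re → ∀ i, Gammaℝ (s + G.ex e i) ≠ 0 := by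
      intro s hs i
      refine Gammaℝ_ne_zero_of_re_pos ?_
      rw [add_re, natCast_re]
      have : (0 : ℝ) ≤ G.ex e i := Nat.cast_nonneg _
      linarith
    have hUF : ∀ s : ℂ, (∀ i, Gammaℝ (s + G.ex e i) ≠ 0) → GG R (G.ex e) s * (U s * Gi s) = U s := by
      intro s hs
      have := hGG s hs
      linear_combination (U s) * this
    have hFL : ∀ s : ℂ, 1 < s.re → LI ψ s = U s * Gi s := by
      intro s hs
      have h2 := hGG s (hre s (by linarith))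
      rw [hUL' s hs]
      linear_combination (-(LI ψ s)) * h2
    have hFE : FEd R (G.ex e) (fun s => U s * Gi s) := by
      refine ⟨G.ex_le e_le, hU.mul hGid, ⟨w, hw, fun s hs => ?_⟩, fun a b => ?_⟩
      · have h1 : (1 - (starRingEnd ℂ) s).im ≠ 0 := by simpa using hs
        change GG R (G.ex e) s * (U s * Gi s) = w * (starRingEnd ℂ) (GG R (G.ex e) _ * (U _ * Gi _))
        rw [hUF s (him s hs), hUF _ (him _ h1)]
        exact hfe s
      · obtain ⟨C, hC⟩ := U_bounded hR0 hU hw hUL' hfe hbd hB a b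
        refine ⟨C, fun s h1 h2 h3 => ?_⟩
        have h4 : s.im ≠ 0 := by
          intro h
          rw [h, abs_zero] at h3
          linarith
        change ‖GG R (G.ex e) s * (U s * Gi s)‖ ≤ C
        rw [hUF s (him s h4)]
        exact hC s h1 h2
    refine ⟨fun s => U s * Gi s, hU.mul hGid, hFL, poly_of_FEd hD hFE (B := B) fun s hs => ?_⟩
    have := hB s hs
    rwa [hFL s (by linarith)] at this
  · have hM : G.IsModChar 𝔣 e ψ := by
      refine ⟨ne_bot, htop, e_le, e_complex, fun 𝔞 => ?_, hsig⟩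
      by_cases h0 : 𝔞 = ⊥
      · subst h0
        have h1 : ψ (⊥ : Ideal (𝓞 K)) = 0 := map_zero ψ
        constructor
        · intro h2
          exact absurd h1 h2
        · intro h2
          exfalso
          rw [Ideal.isCoprime_iff_sup_eq, bot_sup_eq] at h2
          exact htop h2
      · exact supp 𝔞 h0
    obtain ⟨g, hg, hg2⟩ := G.fe_prim hp hM
    refine ⟨g, hg.diff, fun s hs => (hg2 s hs).symm, poly_of_FEd ?_ hg (B := B) fun s hs => ?_⟩
    · have h1 : Ideal.absNorm 𝔣 ≠ 0 := by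
        rw [Ne, Ideal.absNorm_eq_zero_iff]
        exact ne_bot
      have h2 : Ideal.absNorm (differentIdeal ℤ (𝓞 K)) ≠ 0 := by
        rw [Ne, Ideal.absNorm_eq_zero_iff]
        exact differentIdeal_ne_bot
      exact_mod_cast Nat.pos_of_ne_zero (mul_ne_zero h1 h2)
    · rw [hg2 s (by linarith)]
      exact hB s hs

/-- the factors at finitely many primes -/
theorem poly_Ef {𝔪 : Ideal (𝓞 K)} (h : 𝔪 ≠ ⊥) {ψ : Ideal (𝓞 K) →*₀ ℂ} (hψ : ∀ 𝔞, ‖ψ 𝔞‖ ≤ 1) :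
    Poly 0 (Pool.Agent.Y773.AB.Ef 𝔪 ψ) := by
  have h1 : Pool.Agent.Y773.AB.Ef 𝔪 ψ = fun s => ∏ 𝔭 ∈ (Pool.Agent.Y773.AB.fin_pr h).toFinset,
      (1 - ψ 𝔭 * ((Ideal.absNorm (𝔭 : Ideal (𝓞 K)) : ℕ) : ℂ) ^ (-s)) :=
    funext fun s => Pool.Agent.Y773.AB.Ef_eq h ψ s
  rw [h1]
  refine Poly.prod _ fun 𝔭 _ => Poly.of_bound (C := 2) fun s hs => ?_
  refine (norm_sub_le _ _).trans ?_
  rw [norm_one, norm_mul]
  have h2 : Ideal.absNorm (𝔭 : Ideal (𝓞 K)) ≠ 0 := fun h3 =>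
    𝔭.2.ne_zero (Ideal.absNorm_eq_zero_iff.1 h3)
  have h3 : ‖((Ideal.absNorm (𝔭 : Ideal (𝓞 K)) : ℕ) : ℂ) ^ (-s)‖ ≤ 1 := by
    rw [Complex.norm_natCast_cpow_of_pos (Nat.pos_of_ne_zero h2), neg_re]
    refine Real.rpow_le_one_of_one_le_of_nonpos ?_ (by linarith)
    exact_mod_cast Nat.pos_of_ne_zero h2
  have := mul_le_one₀ (hψ 𝔭) (norm_nonneg _) h3
  linarith

end

/-- **Hecke's theorem for nontrivial characters, with the growth.** -/
theorem hecke_poly (F : Type) [Field F] [NumberField F] (N : ℕ) (χ : Dv F →+ Additive ℂˣ) (hN : N ≠ 0)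
    (hχ : ∀ x ∈ Ray F N, χ (prin x) = 0) (hne : ∃ D ∈ Pr F N, χ D ≠ 0) :
    ∃ f : ℂ → ℂ, Differentiable ℂ f ∧ (∀ s : ℂ, 1 < s.re → f s = Lc N χ s) ∧ Poly 0 f := by
  classical
  obtain ⟨𝔪, h𝔪⟩ : ∃ 𝔪 : Ideal (𝓞 F), 𝔪 = Ideal.span {(N : 𝓞 F)} := ⟨_, rfl⟩
  have hm0 : 𝔪 ≠ ⊥ := by
    rw [h𝔪, Ne, Ideal.span_singleton_eq_bot]
    exact_mod_cast hN
  have hpsi : ∀ 𝔞, psi N χ 𝔞 = if 𝔞 ≠ ⊥ ∧ IsCoprime 𝔞 𝔪 then
      (((χ (dv 𝔞)).toMul : ℂˣ) : ℂ) else 0 := by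
    intro 𝔞
    rw [psi_apply, h𝔪]
  obtain ⟨𝔣, e, ψ', hdvd, hne', hele, hecx, hsupp, hsig, hprim, heq⟩ :=
      Pool.Agent.Q264.AR.prim F 𝔪 (psi N χ) hm0 (by
    intro 𝔞 h0
    rw [hpsi]
    constructor
    · intro h
      by_contra h1
      exact h (if_neg fun h2 => h1 h2.2)
    · intro h
      rw [if_pos ⟨h0, h⟩]
      exact Units.ne_zero _) (by
    intro x hx0 hx1 hxp
    have hx0F : (x : F) ≠ 0 := by
      intro h
      exact hx0 (by exact_mod_cast h)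
    have h1 : IsCoprime (Ideal.span {x}) 𝔪 := by
      rw [Ideal.isCoprime_iff_exists]
      refine ⟨x, Ideal.mem_span_singleton_self _, -(x - 1), 𝔪.neg_mem hx1, by ring⟩
    rw [hpsi, if_pos ⟨by rwa [Ne, Ideal.span_singleton_eq_bot], h1⟩,
      dv_span (Units.mk0 (x : F) hx0F) rfl, hχ]
    · rfl
    · refine ⟨?_, ?_⟩
      · intro v hv
        rw [Units.val_mk0]
        rw [h𝔪] at hx1
        obtain ⟨c, hc⟩ := Ideal.mem_span_singleton.1 hx1
        have h2 : (x : F) - 1 = (N : F) * (c : F) := by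
          have := congrArg (algebraMap (𝓞 F) F) hc
          rw [map_sub, map_one, map_mul, map_natCast] at this
          exact this
        rw [h2, map_mul]
        calc v.valuation F (N : F) * v.valuation F (c : F) ≤ v.valuation F (N : F) * 1 :=
              mul_le_mul' le_rfl (v.valuation_le_one _)
          _ = _ := mul_one _
      · rw [Units.val_mk0]
        exact hxp)
  have hnt : ¬ ∀ 𝔞 : Ideal (𝓞 F), 𝔞 ≠ ⊥ → ψ' 𝔞 = 1 := by
    intro ht
    obtain ⟨D, hD, hχD⟩ := hne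
    apply hχD
    have h1 : D = ∑ v ∈ D.support, D v • Finsupp.single v (1 : ℤ) := by
      conv_lhs => rw [← Finsupp.sum_single D]
      refine Finset.sum_congr rfl fun v _ => ?_
      rw [Finsupp.smul_single, smul_eq_mul, mul_one]
    rw [h1, map_sum]
    refine Finset.sum_eq_zero fun v _ => ?_
    rw [map_zsmul]
    by_cases hv : (N : 𝓞 F) ∈ v.asIdeal
    · rw [hD v hv, zero_smul]
    · have hc : IsCoprime v.asIdeal 𝔪 := by
        rw [h𝔪]
        exact (cop_v N v).2 hv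
      have h2 : psi N χ v.asIdeal = 1 := by
        rw [← heq _ hc, ht _ v.ne_bot]
      rw [hpsi, if_pos ⟨v.ne_bot, hc⟩, Pool.Agent.Q84.AR.dv_prime] at h2
      have h3 : χ (Finsupp.single v 1) = 0 := by
        apply Additive.toMul.injective
        exact Units.ext h2
      rw [h3, smul_zero]
  obtain ⟨hnorm, g, hg, hgL, hgP⟩ := poly_prim hne' hele hecx hsupp hsig hprim hnt
  have hE : (∀ 𝔞, ‖psi N χ 𝔞‖ ≤ 1) ∧ ∃ E : ℂ → ℂ, Differentiable ℂ E ∧ (∀ s : ℂ, 1 < s.re →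
      LI (psi N χ) s = LI ψ' s * E s) ∧ Poly 0 E := by
    by_cases htop : 𝔪 = ⊤
    · have h1 : psi N χ = ψ' := by
        ext 𝔞
        exact (heq 𝔞 (by
          rw [htop]
          exact Ideal.isCoprime_iff_sup_eq.2 (by simp))).symm
      rw [h1]
      exact ⟨hnorm, fun _ => 1, differentiable_const _, fun s _ => (mul_one _).symm,
        Poly.of_bound (C := 1) fun s _ => by simp⟩
    · have h1 : psi N χ = Pool.Agent.Y773.AB.res 𝔪 htop ψ' := by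
        ext 𝔞
        by_cases hc : IsCoprime 𝔞 𝔪
        · rw [Pool.Agent.Y773.AB.res_cop htop _ hc, heq 𝔞 hc]
        · rw [Pool.Agent.Y773.AB.res_not htop _ hc, hpsi, if_neg fun h => hc h.2]
      rw [h1]
      exact ⟨Pool.Agent.Y773.AB.norm_res_le htop hnorm, Pool.Agent.Y773.AB.Ef 𝔪 ψ',
        Pool.Agent.Y773.AB.Ef_diff hm0 ψ', fun s hs => Pool.Agent.Y773.AB.LI_res hm0 htop hnorm hs,
        poly_Ef hm0 hnorm⟩
  obtain ⟨hn1, E, hEd, hEL, hEP⟩ := hE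
  refine ⟨fun s => g s * E s, hg.mul hEd, fun s hs => ?_, (hgP.mono (by norm_num)).mul hEP⟩
  rw [Pool.Agent.Q84.AR.Lc_eq hn1 hs, hEL s hs, hgL s hs]

end Pool.Agent.Q284.SP
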