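import Pool.Agent.Q284.SP.Core

/-!
# A complete family of irreducible representations; the zeta functions of the intermediate fields
-/

set_option autoImplicit false
set_option linter.unusedSectionVars false

namespace Pool.Agent.Q284.SP

open NumberField IsDedekindDomain Filter Topology Complex Set
open Pool.Agent.Q92.AR Pool.Agent.H921R2.TatePole Pool.Agent.W353.NF
open Pool.Agent.Q92.RT (induced induced_conj induced_pair class_expand)
open Pool.Agent.Q286.RL (Fam CD cser)
open Pool.Agent.Q284.T (LR cc lf ag mult NT rt)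
open Pool.Agent.H541R3.ART (Irr irrF mem_irrF exists_mult)
open scoped Classical

/-- there is a complete family of irreducible representations -/
theorem exists_fam (Γ : Type) [Group Γ] [Finite Γ] : ∃ (κ : Type) (_ : Fintype κ) (n : κ → ℕ)
    (r : ∀ k, Representation ℂ Γ (Fin (n k) → ℂ)), Fam r ∧
      ∀ χ ∈ Irr Γ, ∃ k, (r k).character = χ := by
  have : Fintype Γ := Fintype.ofFinite Γ
  have hG : (Nat.card Γ : ℂ) ≠ 0 := by exact_mod_cast Nat.card_pos.ne'
  have hk : ∀ k : {χ // χ ∈ irrF Γ}, ∃ (n : ℕ) (ρ : Representation ℂ Γ (Fin n → ℂ)),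
      ρ.IsIrreducible ∧ (k : Γ → ℂ) = ρ.character := fun k => mem_irrF.1 k.2
  choose n r hr hc using hk
  refine ⟨{χ // χ ∈ irrF Γ}, inferInstance, n, r, ⟨hr, fun k l hkl => ⟨fun e => hkl ?_⟩, ?_⟩,
    fun χ hχ => ⟨⟨χ, mem_irrF.2 hχ⟩, (hc _).symm⟩⟩
  · apply Subtype.ext
    rw [hc k, hc l]
    exact Representation.char_iso e
  · have h1 := class_expand (G := Γ) (θ := fun g => if g = 1 then (Nat.card Γ : ℂ) else 0)
      (fun g x => by
        have : x * g * x⁻¹ = 1 ↔ g = 1 := by
          constructor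
          · intro h
            have h2 : g = x⁻¹ * (x * g * x⁻¹) * x := by group
            rw [h2, h]
            group
          · rintro rfl
            group
        simp only [this]) (m := fun χ => χ 1) (fun χ _ => by
          simp only [ite_mul, zero_mul, Finset.sum_ite_eq', Finset.mem_univ, if_true, inv_one]
          ring) 1
    rw [if_pos rfl, ← Finset.sum_coe_sort] at h1
    have h2 : ∀ k : {χ // χ ∈ irrF Γ}, (k : Γ → ℂ) 1 = (n k : ℂ) := by
      intro k
      rw [hc k]
      change LinearMap.trace ℂ _ (r k 1) = _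
      rw [map_one, LinearMap.trace_one, Module.finrank_fin_fun]
    simp only [h2] at h1
    have h3 : ((∑ k, n k ^ 2 : ℕ) : ℂ) = (Nat.card Γ : ℂ) := by
      rw [h1]
      push_cast
      exact Finset.sum_congr rfl fun k _ => by ring
    exact_mod_cast h3

section
variable {Γ : Type} [Group Γ] [Finite Γ] {κ : Type} [Fintype κ] {n : κ → ℕ}
  {r : ∀ k, Representation ℂ Γ (Fin (n k) → ℂ)}

/-- the induced character in terms of the family -/
theorem ind_expand' (h : Fam r) (H : Subgroup Γ) (ψ : H →* ℂˣ) {m : κ → ℕ}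
    (hm : ∀ k, ∑ᶠ h : H, (r k).character h * (((ψ h)⁻¹ : ℂˣ) : ℂ) = (m k : ℂ) * (Nat.card H : ℂ))
    (x : Γ) : induced H ψ x = ∑ k, (m k : ℂ) * (r k).character x := by
  have : Fintype Γ := Fintype.ofFinite Γ
  have hG : (Nat.card Γ : ℂ) ≠ 0 := by exact_mod_cast Nat.card_pos.ne'
  have h1 := Pool.Agent.W353.L1.inversion Finset.univ r (fun k _ => h.irr k)
    (fun k _ l _ hkl => h.ne k l hkl) h.sum (induced H ψ) (fun a x => induced_conj _ ψ a x) x
  have h2 : ∀ k, ∑ y, induced H ψ y⁻¹ * (r k).character y = (m k : ℂ) * Nat.card Γ := by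
    intro k
    rw [← induced_pair H ψ (χ := (r k).character) (fun g x => (r k).char_conj g x) (hm k)]
    refine Fintype.sum_equiv (Equiv.inv Γ) _ _ fun y => ?_
    simp only [Equiv.inv_apply, inv_inv]
  simp only [h2] at h1
  have h3 : (Nat.card Γ : ℂ) * induced H ψ x = (Nat.card Γ : ℂ) *
      ∑ k, (m k : ℂ) * (r k).character x := by
    rw [h1, Finset.mul_sum]
    exact Finset.sum_congr rfl fun k _ => by ring
  exact mul_left_cancel₀ hG h3

/-- the multiplicities of the trivial character of a subgroup -/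
theorem exists_triv_mult (h : Fam r) (H : Subgroup Γ) : ∃ m : κ → ℕ,
    (∀ k, ∑ᶠ h : H, (r k).character h * ((((1 : H →* ℂˣ) h)⁻¹ : ℂˣ) : ℂ) =
      (m k : ℂ) * (Nat.card H : ℂ)) ∧ ∀ k, ¬ NT (r k) → m k = n k := by
  have : Fintype H := Fintype.ofFinite H
  choose m hm using fun k => exists_mult (χ := (r k).character) ⟨n k, r k, h.irr k, rfl⟩ H 1
  refine ⟨m, hm, fun k hk => ?_⟩
  have h1 := hm k
  have h2 : ∀ g : Γ, (r k).character g = n k := Pool.Agent.Q284.T.sum_char_triv (r k) hk
  rw [finsum_eq_sum_of_fintype] at h1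
  simp only [h2, MonoidHom.one_apply, inv_one, Units.val_one, mul_one, Finset.sum_const,
    Finset.card_univ, nsmul_eq_mul, Nat.card_eq_fintype_card] at h1
  have h3 : (Fintype.card H : ℂ) ≠ 0 := by exact_mod_cast Fintype.card_pos.ne'
  have h4 : (m k : ℂ) = n k := mul_right_cancel₀ h3 (by rw [← h1]; ring)
  exact_mod_cast h4

/-- for the trivial subgroup -/
theorem mult_bot {d : ℕ} (ρ : Representation ℂ Γ (Fin d → ℂ)) :
    ∑ᶠ h : (⊥ : Subgroup Γ), ρ.character h * ((((1 : (⊥ : Subgroup Γ) →* ℂˣ) h)⁻¹ : ℂˣ) : ℂ) =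
      (d : ℂ) * (Nat.card (⊥ : Subgroup Γ) : ℂ) := by
  have : Fintype (⊥ : Subgroup Γ) := Fintype.ofFinite _
  rw [finsum_eq_sum_of_fintype, Fintype.sum_eq_single (1 : (⊥ : Subgroup Γ))]
  · simp only [MonoidHom.one_apply, inv_one, Units.val_one, mul_one, Subgroup.coe_one]
    change LinearMap.trace ℂ _ (ρ 1) = _
    rw [map_one, LinearMap.trace_one, Module.finrank_fin_fun]
    simp
  · intro x hx
    exact absurd (Subsingleton.elim x 1) hx

/-- for the whole group -/
theorem mult_top (h : Fam r) {k : κ} (hk : NT (r k)) :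
    ∑ᶠ h : (⊤ : Subgroup Γ), (r k).character h * ((((1 : (⊤ : Subgroup Γ) →* ℂˣ) h)⁻¹ : ℂˣ) : ℂ) =
      ((0 : ℕ) : ℂ) * (Nat.card (⊤ : Subgroup Γ) : ℂ) := by
  have : Fintype Γ := Fintype.ofFinite Γ
  have : Fintype (⊤ : Subgroup Γ) := Fintype.ofFinite _
  rw [finsum_eq_sum_of_fintype, Nat.cast_zero, zero_mul,
    ← Pool.Agent.Q284.T.sum_char (r k) (h.irr k) hk]
  refine Fintype.sum_equiv Subgroup.topEquiv.toEquiv _ _ fun x => ?_
  simp

end

section
variable {F K : Type} [Field F] [NumberField F] [Field K] [NumberField K] [Algebra F K]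
  [IsGalois F K] {κ : Type} [Fintype κ] {n : κ → ℕ}
  {r : ∀ k, Representation ℂ (K ≃ₐ[F] K) (Fin (n k) → ℂ)} {L : κ → ℂ → ℂ}

/-- **the zeros of the zeta function of an intermediate field** -/
theorem zeta_order (h : Fam r) (hL : ∀ k, Continues (L k) (artinL K (r k).character))
    {E : Type} [Field E] [NumberField E] [Algebra F E] [Algebra E K] [IsScalarTower F E K]
    {f : ℂ → ℂ} (hf : Continues f (NumberField.dedekindZeta E)) {m : κ → ℕ}
    (hm : ∀ k, ∑ᶠ h : fixer F E K, (r k).character h * ((((1 : fixer F E K →* ℂˣ) h)⁻¹ : ℂˣ) : ℂ) =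
      (m k : ℂ) * (Nat.card (fixer F E K) : ℂ)) {s : ℂ} (hs : 0 < s.re) :
    meromorphicOrderAt f s =
      ((∑ k, (m k : ℤ) * (meromorphicOrderAt (L k) s).untop₀ : ℤ) : WithTop ℤ) := by
  have h1 : Continues (fun s => ∏ k, L k s ^ m k) (artinL K (induced (fixer F E K) 1)) := by
    refine ⟨fun s hs => MeromorphicAt.fun_prod fun k _ => ((hL k).1 s hs).fun_pow _,
      fun s hs => ?_⟩
    have e1 : induced (fixer F E K) 1 = fun y => ∑ k, (m k : ℂ) * (r k).character y :=
      funext fun y => ind_expand' h _ _ hm y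
    rw [e1, artinL_sum Finset.univ m (fun k => (r k).character) hs]
    exact Finset.prod_congr rfl fun k _ => by rw [(hL k).2 s hs]
  rw [order_zeta (K := F) (M := K) hf h1 hs, order_prod (fun k => (hL k).1 s (Set.mem_univ _))
      (fun k => (hL k).order_ne_top (fun s _ => artinL_ne_zero _ s) s)]

/-- the order of the quotient of the zeta functions of `K` and `F` -/
theorem zeta_quotient (h : Fam r) (hL : ∀ k, Continues (L k) (artinL K (r k).character))
    {f g : ℂ → ℂ} (hf : Continues f (NumberField.dedekindZeta K))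
    (hg : Continues g (NumberField.dedekindZeta F)) {s : ℂ} (hs : 0 < s.re) :
    meromorphicOrderAt f s = meromorphicOrderAt g s +
      ((∑ k ∈ Finset.univ.filter (fun k => NT (r k)),
        (n k : ℤ) * (meromorphicOrderAt (L k) s).untop₀ : ℤ) : WithTop ℤ) := by
  rw [zeta_order h hL hf (m := n) (fun k => by
    have := mult_bot (r k)
    rw [← fixer_self (K := F) (M := K)] at this
    exact this) hs]
  rw [zeta_order h hL hg (m := fun k => if NT (r k) then 0 else n k) (fun k => by
    rw [fixer_base]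
    by_cases hk : NT (r k)
    · simp only [if_pos hk]
      exact mult_top h hk
    · simp only [if_neg hk]
      obtain ⟨m, hm, hm2⟩ := exists_triv_mult h (⊤ : Subgroup (K ≃ₐ[F] K))
      exact (hm k).trans (by rw [hm2 k hk])) hs]
  rw [← WithTop.coe_add, WithTop.coe_inj,
    ← Finset.sum_filter_add_sum_filter_not Finset.univ (fun k => NT (r k))]
  rw [add_comm]
  congr 1
  rw [← Finset.sum_filter_add_sum_filter_not Finset.univ (fun k => NT (r k))
    (fun k => ((if NT (r k) then 0 else n k : ℕ) : ℤ) * (meromorphicOrderAt (L k) s).untop₀)]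
  have e1 : ∑ k ∈ Finset.univ.filter (fun k => NT (r k)),
      ((if NT (r k) then 0 else n k : ℕ) : ℤ) * (meromorphicOrderAt (L k) s).untop₀ = 0 :=
    Finset.sum_eq_zero fun k hk => by
      rw [if_pos (Finset.mem_filter.1 hk).2]
      simp
  rw [e1, zero_add]
  exact Finset.sum_congr rfl fun k hk => by rw [if_neg (Finset.mem_filter.1 hk).2]

/-- without zeros and poles of the nontrivial L-functions all the zeta functions of the
intermediate fields have the same order -/
theorem zeta_same (h : Fam r) (hL : ∀ k, Continues (L k) (artinL K (r k).character)) {s : ℂ}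
    (hs : 0 < s.re) (h0 : ∀ k, NT (r k) → meromorphicOrderAt (L k) s = 0)
    {E : Type} [Field E] [NumberField E] [Algebra F E] [Algebra E K] [IsScalarTower F E K]
    {f : ℂ → ℂ} (hf : Continues f (NumberField.dedekindZeta E)) :
    meromorphicOrderAt f s = ((∑ k ∈ Finset.univ.filter (fun k => ¬ NT (r k)),
      (n k : ℤ) * (meromorphicOrderAt (L k) s).untop₀ : ℤ) : WithTop ℤ) := by
  obtain ⟨m, hm, hm2⟩ := exists_triv_mult h (fixer F E K)
  rw [zeta_order h hL hf hm hs, WithTop.coe_inj,
    ← Finset.sum_filter_add_sum_filter_not Finset.univ (fun k => NT (r k))]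
  have e1 : ∑ k ∈ Finset.univ.filter (fun k => NT (r k)),
      (m k : ℤ) * (meromorphicOrderAt (L k) s).untop₀ = 0 :=
    Finset.sum_eq_zero fun k hk => by
      rw [h0 k (Finset.mem_filter.1 hk).2]
      simp
  rw [e1, zero_add]
  exact Finset.sum_congr rfl fun k hk => by rw [hm2 k (Finset.mem_filter.1 hk).2]

/-- the orders are finite -/
theorem zeta_ne_top (h : Fam r) (hL : ∀ k, Continues (L k) (artinL K (r k).character))
    {g : ℂ → ℂ} (hg : Continues g (NumberField.dedekindZeta F)) {s : ℂ} (hs : 0 < s.re) :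
    meromorphicOrderAt g s ≠ ⊤ := by
  obtain ⟨m, hm, -⟩ := exists_triv_mult h (fixer F F K)
  rw [zeta_order h hL hg hm hs]
  exact WithTop.coe_ne_top

/-- the zeta functions have a continuation -/
theorem exists_zeta (F K E : Type) [Field F] [NumberField F] [Field K] [NumberField K] [Algebra F K]
    [IsGalois F K] [Field E] [NumberField E] [Algebra F E] [Algebra E K] [IsScalarTower F E K] :
    ∃ f : ℂ → ℂ, Continues f (NumberField.dedekindZeta E) := by
  obtain ⟨f, hf, -⟩ := hol (K := F) (M := K) recip hecke (fixer F E K) 1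
  obtain ⟨D, h1, h2, -⟩ := zeta_compare (K := F) (F := E) (M := K)
  refine ⟨fun s => D s * f s, fun s hs => (h1 s hs).fun_mul (hf.1 s hs), fun s hs => ?_⟩
  change D s * f s = _
  rw [h2 s hs, hf.2 s hs]

end

end Pool.Agent.Q284.SP
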